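import Pool.Agent.MP_a43263_nt.VE.Fin
import Pool.Agent.MP_a43263_nt.VW.Ns

-- ======== part 0: formerly Pool.Agent.MP_a43263_nt.VB.Of
section MrgPart0

/-! THEOREM V, part B: the assembly. -/

set_option autoImplicit false

noncomputable section

namespace Pool.Agent.MP_a43263_nt.VB

open Polynomial Finset Matrix JC VV
open UV (zK iq rq Nm Nx po)

namespace Of

variable {p : ℕ} [Fact p.Prime] {g : ℕ} {f : ℤ[X]} {Q : Finset ℕ}

theorem loc_det {b : Prop} {δ : ℚ_[p][X]} {P : Mat g ℚ_[p]} (h : Loc p g f b δ P) : P.det ≠ 0 := by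
  obtain ⟨A, -, e, -, u, -⟩ := h
  intro k
  have := (u.map PadicInt.Coe.ringHom).ne_zero
  rw [RingHom.map_det, RingHom.mapMatrix_apply] at this
  exact this ((congrArg det e).trans (by rw [det_mul, k, mul_zero]))

theorem loc_mono {b : Prop} {δ : ℚ_[p][X]} {P : Mat g ℚ_[p]} (h : Loc p g f False δ P) (n : ¬b) :
    Loc p g f b δ P := by
  obtain ⟨A, S, a, s, u, r, -⟩ := h
  exact ⟨A, S, a, s, u, r, fun k => absurd k n⟩

theorem low_one : Low p g 1 1 := fun v _ => ⟨po v, by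
  simp [po, iq, Polynomial.map_sum] <;> rfl, one_dvd _⟩

theorem lc0 (h : Fam g f) (K : Type) [Field K] [CharZero K] : (f.leadingCoeff : K) ≠ 0 :=
  Int.cast_ne_zero.2 h.sf.ne_zero

/-- the primes where `δ` is a unit times a square -/
theorem gen (hens : VA.HENSStmt) (loc1 : LOC1Stmt) (par : PARStmt) (loc2 : LOC2Stmt) (h : Fam g f)
    (hQ : ∀ q ∈ Q, q.Prime ∧ q % 4 = 1 ∧ Ty g q f) {δ : ℚ[X]} (c : IsCoprime δ (zK f ℚ))
    (s : IsSquare (Nm (mf f ℚ) δ)) {x : ℚ_[p][X]} (e : E1 p f (p ∈ Q) (fK δ ℚ_[p]) x) :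
    ∃ P, Loc p g f (p ∈ Q) (fK δ ℚ_[p]) P ∧ (¬(p : ℤ) ∣ f.leadingCoeff → x = 1 → P = 1) ∧
      (x = 1 → (∃ r : ℤ_[p], IsUnit r ∧ fK δ ℚ_[p] = C (r : ℚ_[p])) → Low p g 1 P) := by
  by_cases d : (p : ℤ) ∣ f.leadingCoeff
  · obtain ⟨a, F, hi⟩ := hens.2 p g f h d
    have e' : E1 p f False (fK δ ℚ_[p]) x := let ⟨w, a, b, _⟩ := e; ⟨w, a, b, False.elim⟩
    obtain ⟨k, u, hu, hk, i⟩ := par p g f a F (fK δ ℚ_[p]) x h.deg h.sf d hi
      (UV.fK_zK f ℚ_[p] ▸ c.map (mapRingHom (Rat.castHom ℚ_[p]))) (by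
        rw [← mf_map (lc0 h ℚ) (Rat.castHom ℚ_[p]), fK, nm_map (mf_monic (lc0 h ℚ))]
        exact s.map _) e'
    obtain ⟨P, l, w⟩ := loc2 p g f a F _ x k u h.deg d hi e' hu hk
    exact ⟨P, loc_mono l fun q => VA.ty_lc h.deg (hQ p q).1 (hQ p q).2.2 d, fun n => absurd d n,
      fun x1 r => w x1 (i r)⟩
  · have o : x = 1 → Mx (2 * g + 2) (mf f ℚ_[p]) x = 1 := fun x1 =>
      x1 ▸ Mx_one (mf_monic (lc0 h _)) ((mf_deg (lc0 h _)).trans h.deg)
    exact ⟨_, loc1 p g f _ _ x (by have := h.pos; omega) h.deg d (fun q => (hQ p q).2) e,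
      fun _ => o, fun x1 _ => o x1 ▸ low_one⟩

/-- the global lattice -/
theorem glob (gln : GLNStmt) (inv : INVStmt) (asm : ASMStmt) (h : Fam g f) (hQ : ∀ q ∈ Q, q.Prime)
    (δ : ℚ[X]) {N : ℤ} (hN : N ≠ 0) (c : Prop) (Z : ∀ l : ℕ, (ZMod l)[X] → Prop)
    (H : ∀ (l : ℕ) [Fact l.Prime], ∃ P, Loc l g f (l ∈ Q) (fK δ ℚ_[l]) P ∧
      (¬(l : ℤ) ∣ N → P = 1) ∧ (c → ∃ φ, Low l g φ P ∧ Z l φ)) :
    ∃ (γ : Mat g ℚ) (A T : Mat g ℤ), Rep g f.leadingCoeff (nz f) A T ∧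
      (∀ q ∈ Q, St (f.leadingCoeff : ZMod q) (zK (nz f) (ZMod q)) (mK A (ZMod q))
        (mK (A * T) (ZMod q))) ∧ Lk g f δ γ A T ∧
      (c → ∀ (l : ℕ) [Fact l.Prime], ∃ φ, Low l g φ (qM l γ) ∧ Z l φ) := by
  obtain ⟨γ, k⟩ := gln (2 * g + 2) N (fun l _ P => Loc l g f (l ∈ Q) (fK δ ℚ_[l]) P ∧
    (c → ∃ φ, Low l g φ P ∧ Z l φ)) hN fun l _ =>
      let ⟨P, a, b, d⟩ := H l; ⟨P, loc_det a, ⟨a, d⟩, b⟩
  obtain ⟨A, T, r, s, l⟩ := asm g f Q δ γ h.deg h.sf hQ fun l _ =>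
    let ⟨P, U, a, u, e⟩ := k l; e ▸ (inv l g P U u).1 _ _ _ a.1
  refine ⟨γ, A, T, r, s, l, fun hc l _ => ?_⟩
  obtain ⟨P, U, a, u, e⟩ := k l
  obtain ⟨φ, b, z⟩ := a.2 hc
  exact ⟨φ, e ▸ (inv l g P U u).2 _ b, z⟩

theorem fK_C (r : ℚ) : fK (C r) ℚ_[p] = C (r : ℚ_[p]) := by simp [fK]

/-- constants that are units -/
theorem e1_C (b : Prop) {r : ℤ_[p]} (u : IsUnit r) : E1 p f b (C (r : ℚ_[p])) 1 :=
  ⟨C r, by rw [iq, map_C, one_pow, mul_one]; exact (sub_self (C (r : ℚ_[p]))).symm ▸ dvd_zero _, by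
    rw [rq, map_C]
    obtain ⟨v, hv⟩ := (isUnit_C.2 (u.map PadicInt.toZMod)).exists_left_inv
    exact ⟨v, 0, by rw [hv, zero_mul, add_zero]⟩, fun _ => by simp [rq]⟩

theorem not_lc (h : Fam g f) (k : Nx p f ∨ Sx p f) : ¬(p : ℤ) ∣ f.leadingCoeff := fun d => by
  obtain ⟨s, n⟩ := h.inf p Fact.out d
  rcases k with ⟨φ, a, b, c, h1, h2, h3⟩ | ⟨c, G, e⟩
  · have h4 : zK φ (ZMod p) * zK φ (ZMod p) ∣ zK f (ZMod p) :=
      ⟨zK a (ZMod p), by rw [h3]; simp [sq]⟩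
    have h5 := natDegree_eq_zero_of_isUnit (s.squarefree _ h4)
    rw [h1.natDegree_map] at h5
    omega
  · have c0 : c ≠ 0 := fun z => s.ne_zero (by rw [e, z, C_0, zero_mul])
    rw [e, natDegree_C_mul c0, natDegree_pow] at n
    omega

end Of

open Of in
theorem bad_of (hens : VA.HENSStmt) (gln : GLNStmt) (inv : INVStmt) (asm : ASMStmt)
    (loc1 : LOC1Stmt) (par : PARStmt) (loc2 : LOC2Stmt) (locn : LOCNStmt) (locs : LOCSStmt)
    (scale : SCALEStmt) (dsq : DSQStmt) (detc : DETStmt) (intc : INTCStmt) : BADStmt := by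
  intro g f Q M h hQ hM hb
  rcases hb with hb | ⟨p, hp, p2, pQ, Mp, hx⟩
  · obtain ⟨δ, N, hN, c, s, n, e⟩ := scale g f Q h.deg hb
    obtain ⟨γ, A, T, r, st, l, -⟩ := glob gln inv asm h (fun q k => (hQ q k).1) δ
      (mul_ne_zero hN h.sf.ne_zero) False (fun _ _ => True) fun l _ => by
        obtain ⟨x, a, b⟩ := e l
        obtain ⟨P, u, v, -⟩ := gen hens loc1 par loc2 h hQ c s a
        exact ⟨P, u, fun k => v (fun d => k (d.mul_left _)) (b fun d => k (d.mul_right _)),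
          False.elim⟩
    exact ⟨A, T, r, st, fun e a b d => absurd (dsq g f δ γ A T e h c l ⟨a, b, d⟩).1 n⟩
  have : Fact p.Prime := ⟨hp⟩
  have pl := not_lc h hx
  have p0 : (p : ℚ) ≠ 0 := Nat.cast_ne_zero.2 hp.ne_zero
  obtain ⟨r, P, ψ, lo, lw, hr⟩ : ∃ (r : ℚ) (P : Mat g ℚ_[p]) (ψ : (ZMod p)[X]),
      Loc p g f False (C (r : ℚ_[p])) P ∧ Low p g ψ P ∧
      (r = 1 ∧ 0 < ψ.natDegree ∨ r = (p : ℚ)⁻¹ ∧ ψ = 0) := by
    rcases hx with k | k
    · obtain ⟨P, ψ, a, b, c⟩ := locn p g f h.deg p2 pl k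
      exact ⟨1, P, ψ, by rwa [Rat.cast_one], b, Or.inl ⟨rfl, c⟩⟩
    · obtain ⟨P, a, b⟩ := locs p g f h.deg pl k
      exact ⟨(p : ℚ)⁻¹, P, 0, by rwa [Rat.cast_inv, Rat.cast_natCast], b, Or.inr ⟨rfl, rfl⟩⟩
  have r0 : r ≠ 0 := by
    rcases hr with k | k <;> rw [k.1]
    exacts [one_ne_zero, inv_ne_zero p0]
  have c : IsCoprime (C r) (zK f ℚ) := ⟨C r⁻¹, 0, by
    rw [← C_mul, inv_mul_cancel₀ r0, C_1, zero_mul, add_zero]⟩
  have s : IsSquare (Nm (mf f ℚ) (C r)) := ⟨r ^ (g + 1), by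
    rw [nm_C, mf_deg (lc0 h ℚ), h.deg]; ring⟩
  obtain ⟨γ, A, T, re, st, l, w⟩ := glob gln inv asm h (fun q k => (hQ q k).1) (C r)
    (mul_ne_zero (Nat.cast_ne_zero.2 hp.ne_zero : (p : ℤ) ≠ 0) h.sf.ne_zero) True
    (fun l φ => l = p → (r = 1 ∧ 0 < φ.natDegree ∨ r = (p : ℚ)⁻¹ ∧ φ = 0)) fun l _ => by
      by_cases lp : l = p
      · subst lp
        exact ⟨P, fK_C (p := l) r ▸ loc_mono lo pQ, fun k => absurd (dvd_mul_right _ _) k,
          fun _ => ⟨ψ, lw, fun _ => hr⟩⟩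
      obtain ⟨t, tu, ht⟩ : ∃ t : ℤ_[l], IsUnit t ∧ (t : ℚ_[l]) = r := by
        rcases hr with k | k <;> rw [k.1]
        · exact ⟨1, isUnit_one, by simp⟩
        · have u : IsUnit ((p : ℤ) : ℤ_[l]) := PadicInt.isUnit_iff.2 (le_antisymm
            (PadicInt.norm_le_one _) (not_lt.1 fun k => lp ((Nat.prime_dvd_prime_iff_eq Fact.out
              hp).1 (Int.natCast_dvd_natCast.1 ((PadicInt.norm_int_lt_one_iff_dvd _).1 k)))))
          obtain ⟨v, hv⟩ := u.exists_left_inv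
          refine ⟨v, IsUnit.of_mul_eq_one _ hv, ?_⟩
          rw [Rat.cast_inv, Rat.cast_natCast]
          exact eq_inv_of_mul_eq_one_left (by exact_mod_cast congrArg ((↑) : ℤ_[l] → ℚ_[l]) hv)
      have e : fK (C r) ℚ_[l] = C (t : ℚ_[l]) := by rw [fK_C, ht]
      obtain ⟨P, u, v, z⟩ := gen (p := l) hens loc1 par loc2 h hQ c s (x := 1) (e ▸ e1_C _ tu)
      exact ⟨P, u, fun k => v (fun d => k (d.mul_left _)) rfl,
        fun _ => ⟨1, z rfl ⟨t, tu, e⟩, fun k => absurd k lp⟩⟩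
  refine ⟨A, T, re, st, fun e a b d => ?_⟩
  have dg := (dsq g f _ γ A T e h c l ⟨a, b, d⟩).2 ⟨r, rfl⟩
  obtain ⟨n0, dt⟩ := detc g f r γ A T e h.deg l a dg
  obtain ⟨φ, lφ, z⟩ := w trivial p
  obtain ⟨k, hk, k1, k2⟩ := intc p g γ φ e dg (fun l _ => let ⟨φ, a, _⟩ := w trivial l; ⟨φ, a⟩) lφ
  rw [hk] at n0 dt
  have k0 : k ≠ 0 := Int.cast_ne_zero.1 n0
  have p1 : (1 : ℚ) ≤ p := by exact_mod_cast hp.one_le
  have key : (p : ℚ) ^ 2 ≤ |r| ^ (g + 1) * (k : ℚ) ^ 2 := by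
    rcases z rfl with ⟨e1, e2⟩ | ⟨e1, e2⟩
    · rw [e1, abs_one, one_pow, one_mul]
      exact_mod_cast Int.le_of_dvd (sq_pos_of_ne_zero k0) (pow_dvd_pow_of_dvd (k1 e2) 2)
    · have : ((p : ℚ) ^ (g + 1)) ^ 2 ≤ (k : ℚ) ^ 2 := by
        exact_mod_cast Int.le_of_dvd (sq_pos_of_ne_zero k0) (pow_dvd_pow_of_dvd (k2 e2) 2)
      rw [e1, abs_inv, Nat.abs_cast, inv_pow, le_inv_mul_iff₀ (by positivity)]
      refine le_trans ?_ this
      rw [sq ((p : ℚ) ^ (g + 1))]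
      exact mul_le_mul_of_nonneg_left (pow_le_pow_right₀ p1 (by have := h.pos; omega))
        (by positivity)
  have fin : (p : ℚ) ^ 2 * |(f.leadingCoeff : ℚ)| ^ (g * (g + 1)) ≤
      |(((Matrix.of fun i j => e i ⬝ᵥ (A * T ^ (g + 1)) *ᵥ e j).det : ℤ) : ℚ)| := by
    rw [dt, mul_right_comm]
    exact mul_le_mul_of_nonneg_right key (by positivity)
  refine le_trans (mul_le_mul_of_nonneg_right (pow_le_pow_left₀ hM Mp 2) (by positivity)) ?_
  exact_mod_cast fin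

end Pool.Agent.MP_a43263_nt.VB

end
end MrgPart0

-- ======== part 1: formerly Pool.Agent.MP_a43263_nt.VB.Gln
section MrgPart1

/-! THEOREM V, part B: strong approximation for the general linear group. -/

set_option autoImplicit false

noncomputable section

namespace Pool.Agent.MP_a43263_nt.VB

open Finset Matrix

namespace Gln

variable {n : ℕ}

/-- invertible over the `p`-adic integers -/
def Kp (p : ℕ) [Fact p.Prime] (M : Matrix (Fin n) (Fin n) ℚ_[p]) : Prop :=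
  ∃ U, IsUnit (det U) ∧ M = iM p U

variable {p : ℕ} [Fact p.Prime]

lemma Kp.mul {M M' : Matrix (Fin n) (Fin n) ℚ_[p]} : Kp p M → Kp p M' → Kp p (M * M') := by
  rintro ⟨U, a, rfl⟩ ⟨V, b, rfl⟩
  exact ⟨U * V, by rw [det_mul]; exact a.mul b, Matrix.map_mul.symm⟩

lemma Kp.inv {M : Matrix (Fin n) (Fin n) ℚ_[p]} : Kp p M → ∃ M', M * M' = 1 := by
  rintro ⟨U, a, rfl⟩
  refine ⟨iM p U⁻¹, ?_⟩
  rw [← Matrix.map_mul, mul_nonsing_inv _ a]
  exact Matrix.map_one _ (map_zero _) (map_one _)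

lemma Kp.ne {M : Matrix (Fin n) (Fin n) ℚ_[p]} (h : Kp p M) : M.det ≠ 0 := by
  obtain ⟨M', e⟩ := h.inv
  exact left_ne_zero_of_mul_eq_one (det_mul M M' ▸ e ▸ det_one : M.det * M'.det = 1)

lemma of_norm {M : Matrix (Fin n) (Fin n) ℚ_[p]} (h : ∀ i j, ‖M i j‖ ≤ 1) (hd : ‖M.det‖ = 1) :
    Kp p M := by
  obtain ⟨U, rfl⟩ : ∃ U, M = iM p U := ⟨of fun i j => ⟨M i j, h i j⟩, rfl⟩
  exact ⟨U, PadicInt.isUnit_iff.2
    ((congrArg norm (RingHom.map_det (PadicInt.Coe.ringHom (p := p)) U)).trans hd), rfl⟩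

lemma of_diag {d : Fin n → ℚ_[p]} (h : ∀ i, ‖d i‖ = 1) : Kp p (diagonal d) :=
  of_norm (fun i j => by rw [diagonal_apply]; split_ifs <;> simp [h])
    (by rw [det_diagonal, norm_prod]; exact prod_eq_one fun i _ => h i)

lemma of_tv {i j : Fin n} (h : i ≠ j) {c : ℚ_[p]} (hc : ‖c‖ ≤ 1) : Kp p (transvection i j c) :=
  ⟨transvection i j ⟨c, hc⟩, by rw [det_transvection_of_ne _ _ h]; exact isUnit_one, by
    ext a b
    simp only [transvection, map_apply, Matrix.add_apply, one_apply, single, of_apply]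
    split_ifs <;> simp⟩

lemma qM_tv (i j : Fin n) (c : ℚ) : qM p (transvection i j c) = transvection i j (c : ℚ_[p]) := by
  ext a b
  simp only [transvection, map_apply, Matrix.add_apply, one_apply, single, of_apply]
  split_ifs <;> simp

lemma norm_other (l : ℕ) [Fact l.Prime] (h : l ≠ p) : ‖(p : ℚ_[l])‖ = 1 :=
  Padic.norm_natCast_eq_one_iff.2 ((Nat.coprime_primes Fact.out Fact.out).2 h)

/-- rational numbers with denominators powers of `p` are dense -/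
lemma approx (c : ℚ_[p]) {ε : ℝ} (h : 0 < ε) :
    ∃ r : ℚ, ‖(r : ℚ_[p]) - c‖ < ε ∧ ∀ (l : ℕ) [Fact l.Prime], l ≠ p → ‖(r : ℚ_[l])‖ ≤ 1 := by
  by_cases h0 : c = 0
  · exact ⟨0, by simpa [h0] using h, fun l _ _ => by simp⟩
  have p0 : (p : ℚ_[p]) ^ c.valuation ≠ 0 :=
    zpow_ne_zero _ (Nat.cast_ne_zero.2 (Fact.out : p.Prime).ne_zero)
  have e : ‖(p : ℚ_[p]) ^ c.valuation‖ = ‖c‖ := by
    rw [Padic.norm_p_zpow, Padic.norm_eq_zpow_neg_valuation h0]
  have c0 := norm_pos_iff.2 h0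
  obtain ⟨z, hz⟩ : ∃ z : ℤ_[p], (z : ℚ_[p]) = c / p ^ c.valuation :=
    ⟨⟨_, by rw [norm_div, e, div_self c0.ne']⟩, rfl⟩
  obtain ⟨m, hm⟩ := (PadicInt.denseRange_intCast (p := p)).exists_dist_lt z (div_pos h c0)
  refine ⟨m * p ^ c.valuation, ?_, fun l _ hl => ?_⟩
  · rw [dist_comm, dist_eq_norm, lt_div_iff₀ c0, ← e, PadicInt.norm_def, ← norm_mul] at hm
    refine lt_of_eq_of_lt (congrArg norm ?_) hm
    push_cast
    rw [hz, sub_mul, div_mul_cancel₀ _ p0]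
  · push_cast
    rw [norm_mul, norm_zpow, norm_other l hl, _root_.one_zpow, mul_one]
    exact Padic.norm_int_le_one m

/-- the conclusion of the one prime statement -/
def S (p : ℕ) [Fact p.Prime] (P : Matrix (Fin n) (Fin n) ℚ_[p]) : Prop :=
  ∃ γ : Matrix (Fin n) (Fin n) ℚ, (∃ M, Kp p M ∧ qM p γ = P * M) ∧
    ∀ (l : ℕ) [Fact l.Prime], l ≠ p → Kp l (qM l γ)

lemma S_diag {d : Fin n → ℚ_[p]} (h : ∀ i, d i ≠ 0) : S p (diagonal d) := by
  refine ⟨diagonal fun i => (p : ℚ) ^ (d i).valuation,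
    ⟨diagonal fun i => (p : ℚ_[p]) ^ (d i).valuation / d i, of_diag fun i => ?_, ?_⟩,
    fun l _ hl => ?_⟩
  · rw [norm_div, Padic.norm_p_zpow, ← Padic.norm_eq_zpow_neg_valuation (h i),
      div_self (norm_ne_zero_iff.2 (h i))]
  · rw [diagonal_mul_diagonal, qM, diagonal_map (map_zero _)]
    congr 1
    ext i
    rw [mul_div_cancel₀ _ (h i), map_zpow₀, map_natCast]
  · rw [qM, diagonal_map (map_zero _)]
    exact of_diag fun i => by rw [map_zpow₀, map_natCast, norm_zpow, norm_other l hl, _root_.one_zpow]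

lemma S_tv {i j : Fin n} (h : i ≠ j) (c : ℚ_[p]) {P : Matrix (Fin n) (Fin n) ℚ_[p]}
    (hP : P.det ≠ 0) : S p P → S p (transvection i j c * P) := by
  rintro ⟨γ, ⟨M, hM, e⟩, ho⟩
  have g0 : IsUnit (qM p γ).det := by
    rw [e, det_mul]
    exact (mul_ne_zero hP hM.ne).isUnit
  set g := qM p γ with hg
  obtain ⟨E, hE⟩ : ∃ E : Matrix (Fin n) (Fin n) ℚ_[p], E = g⁻¹ * single i j 1 * g := ⟨_, rfl⟩
  obtain ⟨B, hB⟩ := (Set.finite_range fun x : Fin n × Fin n => ‖E x.1 x.2‖).bddAbove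
  have hB' : ∀ a b, ‖E a b‖ ≤ B := fun a b => hB ⟨(a, b), rfl⟩
  have B0 : 0 < B + 1 := by linarith [hB' i i, norm_nonneg (E i i)]
  obtain ⟨r, r1, r2⟩ := approx c (inv_pos.2 B0)
  refine ⟨transvection i j r * γ, ⟨M * (g⁻¹ * transvection i j ((r : ℚ_[p]) - c) * g),
    hM.mul (of_norm (fun a b => ?_) ?_), ?_⟩, fun l _ hl => ?_⟩
  · have e1 : g⁻¹ * transvection i j ((r : ℚ_[p]) - c) * g =
        1 + ((r : ℚ_[p]) - c) • E := by
      rw [hE, transvection, Matrix.mul_add, Matrix.add_mul, Matrix.mul_one, nonsing_inv_mul _ g0,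
        ← Matrix.smul_mul, ← Matrix.mul_smul, smul_single, smul_eq_mul, mul_one]
    rw [e1, Matrix.add_apply, Matrix.smul_apply, smul_eq_mul]
    refine (Padic.nonarchimedean _ _).trans (max_le ?_ ?_)
    · rw [one_apply]
      split_ifs <;> simp
    · rw [norm_mul]
      refine (mul_le_mul r1.le ((hB' a b).trans (le_add_of_nonneg_right zero_le_one))
        (norm_nonneg _) (inv_pos.2 B0).le).trans (inv_mul_cancel₀ B0.ne').le
  · rw [det_mul, det_mul, det_transvection_of_ne _ _ h, mul_one, det_nonsing_inv_mul_det _ g0,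
      norm_one]
  · rw [qM, Matrix.map_mul, ← qM, ← qM, qM_tv, ← hg, ← Matrix.mul_assoc, Matrix.mul_assoc _ P,
      ← e, Matrix.mul_assoc g⁻¹, Matrix.mul_assoc, mul_nonsing_inv_cancel_left _ _ g0,
      ← Matrix.mul_assoc, transvection_mul_transvection_same _ _ h, add_sub_cancel]
  · rw [qM, Matrix.map_mul, ← qM, ← qM, qM_tv]
    exact (of_tv h (r2 l hl)).mul (ho l hl)

lemma diag_tv {d : Fin n → ℚ_[p]} (h : ∀ i, d i ≠ 0) (i j : Fin n) (c : ℚ_[p]) :
    diagonal d * transvection i j c = transvection i j (d i * c / d j) * diagonal d := by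
  ext a b
  simp only [transvection, diagonal_mul, mul_diagonal, Matrix.add_apply, one_apply, single,
    of_apply]
  split_ifs with h1 h2 h2
  · obtain ⟨rfl, rfl⟩ := h2
    have := h j
    subst h1
    field_simp
  · subst h1
    ring
  · obtain ⟨rfl, rfl⟩ := h2
    have := h j
    field_simp
    ring
  · ring

lemma S_all (P : Matrix (Fin n) (Fin n) ℚ_[p]) (hP : P.det ≠ 0) : S p P := by
  obtain ⟨L, L', d, rfl⟩ := Pivot.exists_list_transvec_mul_diagonal_mul_list_transvec P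
  simp only [det_mul, TransvectionStruct.det_toMatrix_prod, one_mul, mul_one] at hP
  have hd : ∀ i, d i ≠ 0 := fun i => prod_ne_zero_iff.1 (det_diagonal (d := d) ▸ hP) i (mem_univ i)
  rw [Matrix.mul_assoc]
  induction L with
  | cons t L ih =>
    rw [List.map_cons, List.prod_cons, Matrix.mul_assoc]
    exact S_tv t.hij _ (by simpa [det_mul] using hP) ih
  | nil =>
    rw [List.map_nil, List.prod_nil, Matrix.one_mul]
    induction L' with
    | nil => simpa using S_diag hd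
    | cons t L' ih =>
      rw [List.map_cons, List.prod_cons, ← Matrix.mul_assoc, TransvectionStruct.toMatrix,
        diag_tv hd, Matrix.mul_assoc]
      exact S_tv t.hij _ (by simpa [det_mul] using hP) ih

end Gln

open Gln

theorem gl1 : GL1Stmt := fun _ _ _ P hP => by
  obtain ⟨γ, ⟨M, ⟨U, a, rfl⟩, e⟩, h⟩ := S_all P hP
  exact ⟨γ, ⟨U, a, e⟩, h⟩

theorem gln (h : GL1Stmt) : GLNStmt := by
  intro n N R hN hR
  choose P h1 h2 h3 using hR
  have key : ∀ T : Finset ℕ, ∃ γ : Matrix (Fin n) (Fin n) ℚ, ∀ (p : ℕ) [Fact p.Prime],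
      (p ∈ T → ∃ M, Kp p M ∧ qM p γ = P p * M) ∧ (p ∉ T → Kp p (qM p γ)) := by
    intro T
    induction T using Finset.induction_on with
    | empty =>
      exact ⟨1, fun p _ => ⟨fun h => absurd h (notMem_empty p), fun _ => ⟨1, by simp, by
        rw [qM, iM, Matrix.map_one _ (map_zero _) (map_one _),
          Matrix.map_one _ (map_zero _) (map_one _)]⟩⟩⟩
    | insert q T hq ih =>
      obtain ⟨γ, hγ⟩ := ih
      by_cases hp : q.Prime
      swap
      · refine ⟨γ, fun p hp' => ?_⟩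
        have : p ≠ q := fun e => hp (e ▸ hp'.out)
        simpa only [mem_insert, this, false_or] using hγ p
      have := Fact.mk hp
      obtain ⟨g', e⟩ := ((hγ q).2 hq).inv
      obtain ⟨γ', ⟨U, a, b⟩, c⟩ := h n q (g' * P q) (by
        rw [det_mul]
        exact mul_ne_zero (right_ne_zero_of_mul_eq_one
          (det_mul _ g' ▸ e ▸ det_one : (qM q γ).det * g'.det = 1)) (h1 q))
      refine ⟨γ * γ', fun p _ => ?_⟩
      rw [show qM p (γ * γ') = qM p γ * qM p γ' from Matrix.map_mul]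
      by_cases hpq : p = q
      · subst hpq
        exact ⟨fun _ => ⟨_, ⟨U, a, rfl⟩, by
          rw [b, ← Matrix.mul_assoc, ← Matrix.mul_assoc, e, Matrix.one_mul]⟩,
          fun k => absurd (mem_insert_self _ _) k⟩
      simp only [mem_insert, hpq, false_or]
      refine ⟨fun k => ?_, fun k => ((hγ p).2 k).mul (c p hpq)⟩
      obtain ⟨M, m1, m2⟩ := (hγ p).1 k
      exact ⟨_, m1.mul (c p hpq), by rw [m2, Matrix.mul_assoc]⟩
  obtain ⟨γ, hγ⟩ := key N.natAbs.primeFactors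
  refine ⟨γ, fun p hp => ?_⟩
  by_cases k : p ∈ N.natAbs.primeFactors
  · obtain ⟨M, ⟨U, a, rfl⟩, e⟩ := (hγ p).1 k
    exact ⟨_, U, h2 p, a, e⟩
  · obtain ⟨U, a, e⟩ := (hγ p).2 k
    refine ⟨_, U, h2 p, a, ?_⟩
    rw [h3 p fun d => k (Nat.mem_primeFactors.2 ⟨hp.out, Int.natCast_dvd.1 d,
      Int.natAbs_ne_zero.2 hN⟩), Matrix.one_mul, e]

end Pool.Agent.MP_a43263_nt.VB

end
end MrgPart1

-- ======== part 2: formerly Pool.Agent.MP_a43263_nt.VB.Asm
section MrgPart2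

/-! THEOREM V, part B: the characteristic polynomial and the global lattice. -/

set_option autoImplicit false

noncomputable section

namespace Pool.Agent.MP_a43263_nt.VB

open Polynomial Finset Matrix JC VV
open UV (zK iq rq Nm Nx po)

namespace Asm

section ring
variable {R : Type} [CommRing R] {n : ℕ} {m : R[X]}

theorem Gn_add (δ δ' : R[X]) : Gn n m (δ + δ') = Gn n m δ + Gn n m δ' := by
  ext i j
  simp only [Gn, of_apply, Matrix.add_apply, add_mul, tb_add]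

theorem Gn_pow (hm : m.Monic) (hd : m.natDegree = n) (δ x : R[X]) (k : ℕ) :
    Gn n m δ * Mx n m x ^ k = Gn n m (δ * x ^ k) := by
  induction k with
  | zero => simp
  | succ k ih => rw [pow_succ, ← Matrix.mul_assoc, ih, Gn_Mx hm hd, pow_succ, mul_assoc]

theorem Gn_aeval (hm : m.Monic) (hd : m.natDegree = n) (x P : R[X]) :
    Gn n m 1 * aeval (Mx n m x) P = Gn n m (P.comp x) := by
  induction P using Polynomial.induction_on' with
  | add P Q a b => rw [map_add, Matrix.mul_add, a, b, add_comp, Gn_add]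
  | monomial k c =>
    rw [aeval_monomial, monomial_comp, Gn_C_mul, ← Algebra.smul_def, Matrix.mul_smul,
      Gn_pow hm hd, one_mul]

theorem dvd_of_Gn (hm : m.Monic) (hd : m.natDegree = n) (hn : 0 < n) {δ : R[X]}
    (h : Gn n m δ = 0) : m ∣ δ := by
  have k := Gn_Mx hm hd 1 δ
  rw [one_mul, h] at k
  have z : Mx n m δ = 0 := by
    rw [← nonsing_inv_mul_cancel_left _ (Mx n m δ) (unit_Gn hm hd isCoprime_one_left), k,
      Matrix.mul_zero]
  simpa [z, po] using Mx_col hm hd δ ⟨0, hn⟩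

end ring

theorem int_of (r : ℚ) (h : ∀ (p : ℕ) [Fact p.Prime], ∃ z : ℤ_[p], (z : ℚ_[p]) = r) :
    ∃ k : ℤ, (k : ℚ) = r := by
  refine ⟨r.num, Rat.coe_int_num_of_den_eq_one (by_contra fun k => ?_)⟩
  obtain ⟨p, hp, hd⟩ := Nat.exists_prime_and_dvd k
  have := Fact.mk hp
  obtain ⟨z, hz⟩ := h p
  have u := PadicInt.isUnit_iff.1 (PadicInt.isUnit_den r (hz ▸ z.2))
  have l := (PadicInt.norm_int_lt_one_iff_dvd (p := p) (r.den : ℤ)).2 (by exact_mod_cast hd)
  rw [Int.cast_natCast, u] at l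
  exact lt_irrefl _ l

theorem mat_of {g : ℕ} (B : Mat g ℚ)
    (h : ∀ (p : ℕ) [Fact p.Prime], ∃ Z : Mat g ℤ_[p], iM p Z = qM p B) :
    ∃ A : Mat g ℤ, mK A ℚ = B := by
  choose A hA using fun i j => int_of (B i j) fun p _ => by
    obtain ⟨Z, hZ⟩ := h p
    exact ⟨Z i j, congrFun (congrFun hZ i) j⟩
  exact ⟨Matrix.of A, Matrix.ext hA⟩

theorem loc_eq {g p : ℕ} [Fact p.Prime] {A : Mat g ℤ} {Z : Mat g ℤ_[p]}
    (h : iM p Z = qM p (mK A ℚ)) : Z = mK A ℤ_[p] := by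
  ext i j : 1
  refine Subtype.val_injective ((congrFun (congrFun h i) j).trans ?_)
  simp

theorem unit_of_loc (d : ℤ) (h : ∀ (p : ℕ) [Fact p.Prime], IsUnit (d : ℤ_[p])) : IsUnit d := by
  rw [Int.isUnit_iff_natAbs_eq]
  by_contra k
  obtain ⟨p, hp, hd⟩ := Nat.exists_prime_and_dvd k
  have := Fact.mk hp
  have l := (PadicInt.norm_int_lt_one_iff_dvd (p := p) d).2 (Int.natCast_dvd.2 hd)
  rw [PadicInt.isUnit_iff.1 (h p)] at l
  exact lt_irrefl _ l

theorem sqf_dvd {a b : ℤ} (ha : Squarefree a) (h : ∀ p : ℕ, p.Prime → (p : ℤ) ∣ a → (p : ℤ) ∣ b) :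
    a ∣ b := by
  rw [← Int.natAbs_dvd_natAbs, ← Nat.prod_primeFactors_of_squarefree (Int.squarefree_natAbs.2 ha)]
  exact prod_primes_dvd _ (fun p hp => (Nat.prime_of_mem_primeFactors hp).prime) fun p hp =>
    Int.natCast_dvd.1 (h p (Nat.prime_of_mem_primeFactors hp)
      (Int.natCast_dvd.2 (Nat.dvd_of_mem_primeFactors hp)))

theorem mK_inj {g : ℕ} {A B : Mat g ℤ} (h : mK A ℚ = mK B ℚ) : A = B :=
  Matrix.map_injective Int.cast_injective h

theorem mK_mul {g : ℕ} (A B : Mat g ℤ) (R : Type) [CommRing R] :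
    mK (A * B) R = mK A R * mK B R := Matrix.map_mul

theorem mK_det {g : ℕ} (A : Mat g ℤ) (R : Type) [CommRing R] : (mK A R).det = (A.det : R) :=
  ((Int.castRingHom R).map_det A).symm

theorem symm_conj {g : ℕ} {G : Mat g ℚ} (h : G.IsSymm) (γ : Mat g ℚ) : (γᵀ * G * γ).IsSymm := by
  rw [Matrix.IsSymm, transpose_mul, transpose_mul, transpose_transpose, h.eq, Matrix.mul_assoc]

end Asm

open Asm

theorem ch : CHStmt := by
  intro K _ n f hd hn ha
  have hf : f ≠ 0 := by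
    rintro rfl
    simp at ha
  have hm := mf_monic ha
  have hmd := (mf_deg ha).trans hd
  have hN : (zK (nz f) K).Monic := (monic_integralNormalization hf).map _
  have hNd : (zK (nz f) K).natDegree = n := by
    rw [(monic_integralNormalization hf).natDegree_map, natDegree_integralNormalization, hd]
  have h1 : mf f K ∣ (Mx n (mf f K) (C (f.leadingCoeff : K) * X)).charpoly.comp
      (C (f.leadingCoeff : K) * X) :=
    dvd_of_Gn hm hmd hn (by rw [← Gn_aeval hm hmd, aeval_self_charpoly, Matrix.mul_zero])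
  have h2 : mf f K ∣ (zK (nz f) K).comp (C (f.leadingCoeff : K) * X) := by
    have := integralNormalization_eval₂_leadingCoeff_mul (p := f) (by omega)
      ((C : K →+* K[X]).comp (Int.castRingHom K)) X
    rw [← eval₂_map, ← eval₂_map, eval₂_C_X] at this
    exact (mf_dvd ha).2 (Dvd.intro_left _ this.symm)
  have h3 := dvd_sub h1 h2
  rw [← sub_comp] at h3
  by_contra ne
  have ne' := sub_ne_zero.2 ne
  have hc := (Mx n (mf f K) (C (f.leadingCoeff : K) * X)).charpoly_monic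
  have hcd := (Mx n (mf f K) (C (f.leadingCoeff : K) * X)).charpoly_natDegree_eq_dim
  rw [Fintype.card_fin] at hcd
  have lt := natDegree_lt_natDegree ne' (degree_sub_lt_left (by
    rw [degree_eq_natDegree hc.ne_zero, degree_eq_natDegree hN.ne_zero, hcd, hNd]) hc.ne_zero
    (hc.leadingCoeff.trans hN.leadingCoeff.symm))
  have z := eq_zero_of_dvd_of_natDegree_lt h3 (by
    rw [natDegree_comp, natDegree_C_mul_X _ ha, mul_one, hmd]; exact lt.trans_eq hcd)
  exact ne' ((comp_C_mul_X_eq_zero_iff (mem_nonZeroDivisors_of_ne_zero ha)).1 z)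

theorem asm (h : CHStmt) : ASMStmt := by
  intro g f Q δ γ hd hs hQ hL
  have ha : (f.leadingCoeff : ℚ) ≠ 0 := Int.cast_ne_zero.2 hs.ne_zero
  have hm := mf_monic ha
  have hmd := (mf_deg ha).trans hd
  have eφ : ∀ (p : ℕ) [Fact p.Prime], fK δ ℚ_[p] = δ.map (algebraMap ℚ ℚ_[p]) := fun p _ => by
    rw [fK, RingHom.ext_rat (Rat.castHom ℚ_[p]) (algebraMap ℚ ℚ_[p])]
  have eA : ∀ (p : ℕ) [Fact p.Prime], (qM p γ)ᵀ * GA g f (fK δ ℚ_[p]) * qM p γ =
      qM p (γᵀ * GA g f δ * γ) := fun p _ => by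
    rw [eφ, GA_map ha, qM, qM, Matrix.map_mul, Matrix.map_mul, transpose_map]
  have eS : ∀ (p : ℕ) [Fact p.Prime], (qM p γ)ᵀ * GS g f (fK δ ℚ_[p]) * qM p γ =
      qM p (γᵀ * GS g f δ * γ) := fun p _ => by
    rw [eφ, GS_map ha, qM, qM, Matrix.map_mul, Matrix.map_mul, transpose_map]
  obtain ⟨A, hA⟩ := mat_of (γᵀ * GA g f δ * γ) fun p _ => by
    obtain ⟨A, S, a, -⟩ := hL p
    exact ⟨A, a.trans (eA p)⟩
  obtain ⟨S, hS⟩ := mat_of (γᵀ * GS g f δ * γ) fun p _ => by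
    obtain ⟨A, S, -, a, -⟩ := hL p
    exact ⟨S, a.trans (eS p)⟩
  have hl : ∀ (p : ℕ) [Fact p.Prime], IsUnit (mK A ℤ_[p]).det ∧
      ((p : ℤ) ∣ f.leadingCoeff → ∀ i j k l, (p : ℤ_[p]) ∣
        mK S ℤ_[p] i j * mK S ℤ_[p] k l - mK S ℤ_[p] i l * mK S ℤ_[p] k j) ∧
      (p ∈ Q → Sw (f.leadingCoeff : ZMod p) (rM p (mK A ℤ_[p])) (rM p (mK S ℤ_[p]))) := by
    intro p _
    obtain ⟨A', S', a, b, c⟩ := hL p
    rw [eA, ← hA] at a
    rw [eS, ← hS] at b
    rwa [loc_eq a, loc_eq b] at c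
  have hu : IsUnit A.det := unit_of_loc _ fun p _ => mK_det A ℤ_[p] ▸ (hl p).1
  have hAT : A * (A⁻¹ * S) = S := mul_nonsing_inv_cancel_left _ _ hu
  have hdet : (γᵀ * GA g f δ * γ).det ≠ 0 := by
    rw [← hA, mK_det]
    exact Int.cast_ne_zero.2 hu.ne_zero
  rw [det_mul] at hdet
  have hγ : γ.det ≠ 0 := right_ne_zero_of_mul hdet
  have e0 : GA g f δ * Mx (2 * g + 2) (mf f ℚ) (C (f.leadingCoeff : ℚ) * X) = GS g f δ := by
    rw [GA, GS, Gn_Mx hm hmd, mul_mul_mul_comm, ← C_mul, inv_mul_cancel₀ ha, C_1, one_mul]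
  have e1 : γ * mK (A⁻¹ * S) ℚ = Mx (2 * g + 2) (mf f ℚ) (C (f.leadingCoeff : ℚ) * X) * γ := by
    have k := mK_mul A (A⁻¹ * S) ℚ
    rw [hAT, hA, hS, ← e0, Matrix.mul_assoc _ γ, ← Matrix.mul_assoc γᵀ,
      Matrix.mul_assoc _ _ γ] at k
    have u := (left_ne_zero_of_mul hdet).isUnit
    rw [← nonsing_inv_mul_cancel_left _ (γ * _) u, ← k, nonsing_inv_mul_cancel_left _ _ u]
  have hch : (A⁻¹ * S).charpoly = nz f := by
    refine Polynomial.map_injective (Int.castRingHom ℚ) Int.cast_injective ?_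
    rw [← charpoly_map, ← nonsing_inv_mul_cancel_left γ (Matrix.map _ _) hγ.isUnit, e1,
      charpoly_mul_comm, mul_nonsing_inv_cancel_right _ _ hγ.isUnit]
    exact h ℚ _ f hd (by omega) ha
  refine ⟨A, A⁻¹ * S, ⟨mK_inj ?_, ?_, hu, hch, fun i j k l => ?_⟩, fun q hq => ?_, hγ,
    fun k x y => ?_⟩
  · have := symm_conj (G := GA g f δ) (Gn_symm _) γ
    rw [← hA] at this
    exact this
  · rw [hAT]
    have := symm_conj (G := GS g f δ) (Gn_symm _) γ
    rw [← hS] at this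
    exact mK_inj this
  · rw [hAT]
    refine sqf_dvd hs fun p hp hd => ?_
    have := Fact.mk hp
    rw [← PadicInt.norm_int_lt_one_iff_dvd, PadicInt.norm_lt_one_iff_dvd]
    simpa using (hl p).2.1 hd i j k l
  · have := Fact.mk (hQ q hq)
    have r : ∀ B : Mat g ℤ, rM q (mK B ℤ_[q]) = mK B (ZMod q) := fun B => by
      ext i j
      simp
    obtain ⟨x, y, s, a1, a2, a3, a4⟩ := (hl q).2.2 hq
    rw [r] at a2 a4
    rw [r, r] at a3
    refine ⟨mK (A⁻¹ * S) (ZMod q), (mK_mul _ _ _).symm, by rw [charpoly_map, hch], x, y, s, a1,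
      ?_, ?_, a4⟩
    · rw [mK_mul, ← mulVec_mulVec, a2, mulVec_zero]
    · rw [mK_mul, ← mulVec_mulVec, a3, mulVec_smul, mulVec_mulVec, ← mK_mul,
        nonsing_inv_mul _ hu]
      simp
  · have e2 : ∀ k : ℕ, γ * mK ((A⁻¹ * S) ^ k) ℚ =
        Mx (2 * g + 2) (mf f ℚ) (C (f.leadingCoeff : ℚ) * X) ^ k * γ := fun k => by
      induction k with
      | zero => simp
      | succ k ih =>
        rw [pow_succ, mK_mul, ← Matrix.mul_assoc, ih, Matrix.mul_assoc, e1, pow_succ,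
          Matrix.mul_assoc]
    have e3 : ∀ B : Mat g ℤ, ((x ⬝ᵥ B *ᵥ y : ℤ) : ℚ) =
        (fun i => (x i : ℚ)) ⬝ᵥ mK B ℚ *ᵥ fun i => (y i : ℚ) := fun B => by
      simp [dotProduct, mulVec]
    rw [e3, mK_mul, hA, Matrix.mul_assoc, e2, Matrix.mul_assoc, ← Matrix.mul_assoc (GA g f δ), GA,
      Gn_pow hm hmd, ← mulVec_mulVec, ← mulVec_mulVec, dotProduct_mulVec, vecMul_transpose,
      Gn_form]
    rfl

end Pool.Agent.MP_a43263_nt.VB

end
end MrgPart2

-- ======== part 3: formerly Pool.Agent.MP_a43263_nt.VB.Inv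
section MrgPart3

/-! THEOREM V, part B, row INV: the local conditions do not depend on the basis of the lattice. -/

set_option autoImplicit false

noncomputable section

namespace Pool.Agent.MP_a43263_nt.VB

open Polynomial Finset Matrix JC VV
open UV (zK iq rq Nm Nx po)

namespace Inv

/-- the two by two minors of a product on the right -/
theorem minR {R : Type} [CommRing R] {n : ℕ} (q : R) (S U : Matrix (Fin n) (Fin n) R)
    (h : ∀ i j k l, q ∣ S i j * S k l - S i l * S k j) (i j k l : Fin n) :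
    q ∣ (S * U) i j * (S * U) k l - (S * U) i l * (S * U) k j := by
  have e : (S * U) i j * (S * U) k l - (S * U) i l * (S * U) k j =
      ∑ a, ∑ b, U a j * U b l * (S i a * S k b - S i b * S k a) := by
    simp only [Matrix.mul_apply, Finset.sum_mul_sum]
    rw [Finset.sum_comm (f := fun a b => S i a * U a l * (S k b * U b j)), ← Finset.sum_sub_distrib]
    refine Finset.sum_congr rfl fun a _ => ?_
    rw [← Finset.sum_sub_distrib]
    refine Finset.sum_congr rfl fun b _ => ?_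
    ring
  rw [e]
  exact Finset.dvd_sum fun a _ => Finset.dvd_sum fun b _ => (h i a k b).mul_left _

/-- the two by two minors of a congruent matrix -/
theorem minC {R : Type} [CommRing R] {n : ℕ} (q : R) (S U : Matrix (Fin n) (Fin n) R)
    (h : ∀ i j k l, q ∣ S i j * S k l - S i l * S k j) (i j k l : Fin n) :
    q ∣ (Uᵀ * S * U) i j * (Uᵀ * S * U) k l - (Uᵀ * S * U) i l * (Uᵀ * S * U) k j := by
  refine minR q (Uᵀ * S) U (fun i j k l => ?_) i j k l
  have h1 := minR q Sᵀ U (fun a b c d => by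
    have := h b a d c
    simp only [Matrix.transpose_apply]
    rwa [mul_comm (S d a)]) j i l k
  have e : ∀ a b, (Uᵀ * S) a b = (Sᵀ * U) b a := fun a b => by
    rw [← Matrix.transpose_apply (Sᵀ * U), Matrix.transpose_mul, Matrix.transpose_transpose]
  simp only [e]
  rwa [mul_comm ((Sᵀ * U) l i)]

/-- the condition `Sw` under a change of the basis -/
theorem swC {R : Type} [CommRing R] {g : ℕ} (a : R) (A S V : Mat g R) (hV : IsUnit V.det)
    (h : Sw a A S) : Sw a (Vᵀ * A * V) (Vᵀ * S * V) := by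
  obtain ⟨x, y, s, hs, h1, h2, h3⟩ := h
  have e : ∀ z : Fin (2 * g + 2) → R, V *ᵥ (V⁻¹ *ᵥ z) = z := fun z => by
    rw [Matrix.mulVec_mulVec, Matrix.mul_nonsing_inv V hV, Matrix.one_mulVec]
  have e1 : ∀ (B : Mat g R) (z : Fin (2 * g + 2) → R),
      (Vᵀ * B * V) *ᵥ (V⁻¹ *ᵥ z) = Vᵀ *ᵥ (B *ᵥ z) := fun B z => by
    rw [← Matrix.mulVec_mulVec, e, ← Matrix.mulVec_mulVec]
  have e2 : ∀ z : Fin (2 * g + 2) → R,
      (V⁻¹ *ᵥ z) ⬝ᵥ (Vᵀ * A * V) *ᵥ (V⁻¹ *ᵥ z) = z ⬝ᵥ A *ᵥ z := fun z => by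
    rw [e1, Matrix.dotProduct_mulVec, Matrix.vecMul_transpose, e]
  refine ⟨V⁻¹ *ᵥ x, V⁻¹ *ᵥ y, s, hs, ?_, ?_, ?_⟩
  · rw [e1, h1, Matrix.mulVec_zero]
  · rw [e1, e1, h2, Matrix.mulVec_smul]
  · rw [e2, e2, h3]

end Inv

theorem inv : INVStmt := by
  intro p _ g P U hU
  have m3 : ∀ {K : Type} [CommRing K] (φ : ℤ_[p] →+* K) (B : Mat g ℤ_[p]),
      (Uᵀ * B * U).map φ = (U.map φ)ᵀ * B.map φ * U.map φ := fun φ B => by
    rw [Matrix.map_mul, Matrix.map_mul, Matrix.transpose_map]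
  refine ⟨fun f b δ h => ?_, fun ψ h v => ?_⟩
  · obtain ⟨A, S, hA, hS, hd, hm, hb⟩ := h
    refine ⟨Uᵀ * A * U, Uᵀ * S * U, ?_, ?_, ?_, fun hp => Inv.minC _ S U (hm hp), fun hb' => ?_⟩
    · rw [iM, m3, Matrix.transpose_mul]
      change _ * iM p A * _ = _
      rw [hA]
      simp only [Matrix.mul_assoc]
    · rw [iM, m3, Matrix.transpose_mul]
      change _ * iM p S * _ = _
      rw [hS]
      simp only [Matrix.mul_assoc]
    · rw [Matrix.det_mul, Matrix.det_mul, Matrix.det_transpose]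
      exact (hU.mul hd).mul hU
    · rw [rM, rM, m3, m3]
      refine Inv.swC _ _ _ _ ?_ (hb hb')
      have := hU.map (PadicInt.toZMod (p := p))
      rwa [RingHom.map_det] at this
  · have e : (P * iM p U) *ᵥ (fun i => (v i : ℚ_[p])) = P *ᵥ fun i => ((U *ᵥ v) i : ℚ_[p]) := by
      rw [← Matrix.mulVec_mulVec]
      congr 1
      funext i
      exact (RingHom.map_mulVec PadicInt.Coe.ringHom U v i).symm
    rw [e]
    exact h (U *ᵥ v)

end Pool.Agent.MP_a43263_nt.VB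

end
end MrgPart3

-- ======== part 4: formerly Pool.Agent.MP_a43263_nt.VB.Loc1
section MrgPart4

/-! THEOREM V, part B: the lattice at the primes that do not divide the leading coefficient. -/

set_option autoImplicit false

noncomputable section

namespace Pool.Agent.MP_a43263_nt.VB

open Polynomial Finset Matrix JC VV
open UV (zK iq rq Nm Nx po po_of_lt)

namespace Loc1

variable {R : Type} [CommRing R] {n : ℕ} {m : R[X]}

theorem vec_eq (hm : m.Monic) {δ δ' : R[X]} {y : Fin n → R} (h : m ∣ (δ - δ') * po y) :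
    Gn n m δ *ᵥ y = Gn n m δ' *ᵥ y :=
  dotProduct_eq _ _ fun u => by
    rw [dotProduct_comm, dotProduct_comm (Gn n m δ' *ᵥ y), Gn_form, Gn_form]
    refine tb_congr hm ?_
    rw [show δ * po u * po y - δ' * po u * po y = (δ - δ') * po y * po u by ring]
    exact h.mul_right _

theorem vec_zero (hm : m.Monic) {δ : R[X]} {y : Fin n → R} (h : m ∣ δ * po y) :
    Gn n m δ *ᵥ y = 0 :=
  dotProduct_eq_zero _ fun u => by
    rw [dotProduct_comm, Gn_form]
    refine tb_dvd hm ?_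
    rw [mul_right_comm]
    exact h.mul_right _

/-- the coefficient vector of the complementary factor -/
theorem exists_vec {F : R[X]} [Nontrivial R] (hF : F.Monic) (hd : F.natDegree + 1 = n) :
    ∃ x : Fin n → R, po x = F :=
  ⟨fun i => F.coeff i.1, po_of_lt (by
    rw [degree_eq_natDegree hF.ne_zero]
    exact_mod_cast by omega)⟩

theorem form_root {a : R} {F : R[X]} (hF : F.Monic) (hd : F.natDegree + 1 = n)
    (e : m = (X - C a) * F) (δ : R[X]) {x : Fin n → R} (hx : po x = F) :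
    x ⬝ᵥ Gn n m δ *ᵥ x = δ.eval a * F.eval a := by
  rw [Gn_form, hx, e, show δ * F * F = F * (δ * F) by ring, tb_root hF hd, eval_mul]

theorem eval_ne {K : Type} [Field K] {w F : K[X]} (h : IsCoprime w F) {a : K}
    (ha : F.eval a = 0) : w.eval a ≠ 0 := by
  intro k
  obtain ⟨s, t, e⟩ := h
  have := congrArg (eval a) e
  simp [k, ha] at this

end Loc1

open Loc1 in
theorem stq : STQStmt := by
  intro q _ g f w hg hd h4 ⟨c, h, c0, e, hm, hi, dh, sh, hsh⟩ cop ⟨sw, hsw⟩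
  have m1 : (X - 1 : (ZMod q)[X]).Monic := by simpa using monic_X_sub_C (1 : ZMod q)
  have d1 : (X - 1 : (ZMod q)[X]).natDegree = 1 := by simpa using natDegree_X_sub_C (1 : ZMod q)
  have mF : ((X - 1) * h).Monic := m1.mul hm
  have mG : (X * h).Monic := monic_X.mul hm
  have dF : ((X - 1) * h).natDegree + 1 = 2 * g + 2 := by
    rw [m1.natDegree_mul hm, d1, dh]
    omega
  have dG : (X * h).natDegree + 1 = 2 * g + 2 := by
    rw [monic_X.natDegree_mul hm, natDegree_X, dh]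
    omega
  have mM : (X * (X - 1) * h).Monic := (monic_X.mul m1).mul hm
  have dM : (X * (X - 1) * h).natDegree = 2 * g + 2 := by
    rw [mul_assoc, monic_X.natDegree_mul mF, natDegree_X]
    omega
  have lc : (f.leadingCoeff : ZMod q) = c := by
    have := congrArg (coeff · (2 * g + 2)) e
    simp only [coeff_C_mul] at this
    rw [← dM, mM.coeff_natDegree, mul_one, dM, ← hd] at this
    simpa using this
  have em : mf f (ZMod q) = X * (X - 1) * h := by
    rw [mf_eq (lc ▸ c0), e, lc, ← mul_assoc, ← C_mul, inv_mul_cancel₀ c0, C_1, one_mul]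
  obtain ⟨x, hx⟩ := exists_vec mF dF
  obtain ⟨y, hy⟩ := exists_vec mG dG
  obtain ⟨i, hI⟩ := ZMod.exists_sq_eq_neg_one_iff.2 (show q % 4 ≠ 3 by omega)
  have nr : ∀ a, h.eval a ≠ 0 := fun a k => by
    have : h.natDegree = 1 :=
      natDegree_eq_of_degree_eq_some (degree_eq_one_of_irreducible_of_root hi k)
    omega
  have w0 : w.eval 0 ≠ 0 := eval_ne cop (by simp [e])
  have w1 : w.eval 1 ≠ 0 := eval_ne cop (by simp [e])
  have key : x ⬝ᵥ GA g f w *ᵥ x * (y ⬝ᵥ GA g f w *ᵥ y) =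
      -1 * c⁻¹ ^ 2 * (w.eval 0 * w.eval 1) * (h.eval 0 * h.eval 1) := by
    rw [GA, form_root (a := 0) mF dF (by rw [em]; simp [mul_assoc]) _ hx,
      form_root (a := 1) mG dG (by rw [em, C_1]; ring) _ hy, lc]
    simp only [eval_mul, eval_C, eval_sub, eval_X, eval_one]
    ring
  have ks : x ⬝ᵥ GA g f w *ᵥ x * (y ⬝ᵥ GA g f w *ᵥ y) = (i * c⁻¹ * sw * sh) ^ 2 := by
    rw [key, hI, hsw, hsh]
    ring
  refine ⟨x, y, i * c⁻¹ * sw * sh, fun k => ?_, ?_, ?_, ks⟩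
  · rw [key, k, zero_pow two_ne_zero] at ks
    exact mul_ne_zero (mul_ne_zero (mul_ne_zero (neg_ne_zero.2 one_ne_zero)
      (pow_ne_zero 2 (inv_ne_zero c0))) (mul_ne_zero w0 w1)) (mul_ne_zero (nr 0) (nr 1)) ks
  · rw [GS, em]
    exact vec_zero mM ⟨w, by rw [hx]; ring⟩
  · rw [← smul_mulVec, GS, GA, ← Gn_C_mul, em, lc, ← mul_assoc (C c), ← C_mul,
      mul_inv_cancel₀ c0, C_1, one_mul]
    exact vec_eq mM ⟨w, by rw [hy]; ring⟩

theorem loc1 (h : STQStmt) : LOC1Stmt := by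
  intro p _ g f b δ x hg hd hp hb ⟨w, hw, cop, hs⟩
  obtain ⟨m, u, hm, dm, e1, e2, u1, u2, u3⟩ := mon hp
  have h0 : (f.leadingCoeff : ℚ_[p]) ≠ 0 := Int.cast_ne_zero.2 fun k => hp (k ▸ dvd_zero _)
  have mm := mf_monic h0
  have md := (mf_deg h0).trans hd
  have hw' := (mf_dvd h0).2 hw
  have a1 : iM p (Gn (2 * g + 2) m (C u * w)) =
      Gn (2 * g + 2) (mf f ℚ_[p]) (C (f.leadingCoeff : ℚ_[p])⁻¹ * iq p w) := by
    rw [iM, ← Gn_map hm, ← e1, Polynomial.map_mul, map_C, ← u1]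
    rfl
  have s1 : iM p (Gn (2 * g + 2) m (w * X)) = Gn (2 * g + 2) (mf f ℚ_[p]) (iq p w * X) := by
    rw [iM, ← Gn_map hm, ← e1, Polynomial.map_mul, map_X]
  have a2 : rM p (Gn (2 * g + 2) m (C u * w)) = GA g f (rq p w) := by
    rw [rM, ← Gn_map hm, GA, ← e2, Polynomial.map_mul, map_C, u2]
  have s2 : rM p (Gn (2 * g + 2) m (w * X)) = GS g f (rq p w) := by
    rw [rM, ← Gn_map hm, GS, ← e2, Polynomial.map_mul, map_X]
  refine ⟨Gn (2 * g + 2) m (C u * w), Gn (2 * g + 2) m (w * X), ?_, ?_, ?_,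
    fun k => absurd k hp, fun k => ?_⟩
  · rw [a1, GA, Mx_form mm md]
    refine Gn_congr mm ?_
    rw [show ∀ c : ℚ_[p][X], c * iq p w - c * δ * x * x = -c * (δ * x ^ 2 - iq p w) from
      fun _ => by ring]
    exact hw'.mul_left _
  · rw [s1, GS, Mx_form mm md]
    refine Gn_congr mm ?_
    rw [show iq p w * X - δ * X * x * x = -X * (δ * x ^ 2 - iq p w) by ring]
    exact hw'.mul_left _
  · refine unit_Gn hm (dm.trans hd) ?_
    rw [isCoprime_mul_unit_left_left (isUnit_C.2 (.of_mul_eq_one _ u3))]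
    exact cop_of hm (e2 ▸ (mf_coprime (lc_ne hp)).2 cop)
  · rw [a2, s2]
    exact h p g f (rq p w) hg hd (hb k).1 (hb k).2 cop (hs k)

end Pool.Agent.MP_a43263_nt.VB

end
end MrgPart4

-- ======== part 5: formerly Pool.Agent.MP_a43263_nt.VB.Par
section MrgPart5

/-! THEOREM V, part B: the value at the root of negative valuation. -/

set_option autoImplicit false

noncomputable section

namespace Pool.Agent.MP_a43263_nt.VB

open Polynomial Finset Matrix JC VV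
open UV (zK iq rq Nm Nx po)

namespace Par

theorem nm_root {R : Type} [CommRing R] {m : R[X]} (hm : m.Monic) (a : R) :
    Nm m (X - C a) = (-1) ^ m.natDegree * m.eval a := by
  rw [nm_eq hm _ (natDegree_X_sub_C_le a), resultant_X_sub_C_right _ _ _ le_rfl]

theorem int_of_sq {p : ℕ} [Fact p.Prime] {c : ℚ_[p]} {d : ℤ_[p]} (h : c ^ 2 = d) :
    ∃ d : ℤ_[p], c = d := by
  have k : ‖c‖ ^ 2 ≤ 1 := by rw [← norm_pow, h]; exact d.2
  exact ⟨⟨c, (pow_le_one_iff_of_nonneg (norm_nonneg _) two_ne_zero).1 k⟩, rfl⟩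

end Par

theorem par : PARStmt := by
  intro p _ g f e F δ x _ hsq hp H hc ⟨s, hs⟩ ⟨w, hw, hw', _⟩
  have h0 : (f.leadingCoeff : ℚ_[p]) ≠ 0 := Int.cast_ne_zero.2 hsq.ne_zero
  have hz : (f.leadingCoeff : ZMod p) = 0 := (ZMod.intCast_zmod_eq_zero_iff_dvd _ _).2 hp
  have hG : (iq p F).Monic := H.monic.map _
  have hd : (iq p F).natDegree = 2 * g + 1 := by rw [H.monic.natDegree_map, H.deg]
  generalize ha : -(e : ℚ_[p]) / f.leadingCoeff = a
  have l1 : iq p (C (f.leadingCoeff : ℤ_[p]) * X + C e) =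
      C (f.leadingCoeff : ℚ_[p]) * (X - C a) := by
    rw [mul_sub, ← C_mul, ← ha, mul_div_cancel₀ _ h0, C_neg, sub_neg_eq_add, iq, Polynomial.map_add,
      Polynomial.map_mul, map_C, map_C, map_X, map_intCast PadicInt.Coe.ringHom]
    rfl
  have l2 : rq p (C (f.leadingCoeff : ℤ_[p]) * X + C e) = C (PadicInt.toZMod e) := by
    rw [rq, Polynomial.map_add, Polynomial.map_mul, map_C, map_C, map_intCast PadicInt.toZMod, hz,
      C_0, zero_mul, zero_add]
  have m1 : mf f ℚ_[p] = (X - C a) * iq p F := by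
    rw [mf_eq h0, ← UV.iq_zK, H.eq, iq, Polynomial.map_mul, ← iq, l1, ← mul_assoc, ← mul_assoc,
      ← C_mul, inv_mul_cancel₀ h0, C_1, one_mul]
  have m2 : zK f (ZMod p) = C (PadicInt.toZMod e) * rq p F := by
    rw [← UV.rq_zK, H.eq, rq, Polynomial.map_mul, ← rq, l2]
  have s0 : s ≠ 0 := by
    have := ((nm_unit (mf_monic h0) δ).2 ((mf_coprime h0).2 hc)).ne_zero
    rw [hs] at this
    exact left_ne_zero_of_mul this
  rw [m1, nm_mul_left (monic_X_sub_C a) hG, nm_lin] at hs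
  obtain ⟨v, hv⟩ := (nm_unit H.monic w).2 (cop_of H.monic (m2 ▸ hw').of_mul_right_right)
  have ut := (nm_unit H.monic _).2 (cop_of H.monic (w := C (f.leadingCoeff : ℤ_[p]) * X + C e) (by
    rw [l2]
    exact isCoprime_one_left.of_isCoprime_of_dvd_left (isUnit_C.2 (H.unit.map _)).dvd))
  have e1 : Nm (iq p F) δ * Nm (iq p F) x ^ 2 = ((v : ℤ_[p]) : ℚ_[p]) := by
    rw [sq, ← nm_mul hG, ← nm_mul hG, ← sq, nm_congr hG (δ' := iq p w)
      ((Dvd.intro_left _ m1.symm).trans ((mf_dvd h0).2 hw)), nm_map H.monic, hv]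
    rfl
  have e2 := nm_map H.monic PadicInt.Coe.ringHom (C (f.leadingCoeff : ℤ_[p]) * X + C e)
  rw [← iq, ← iq, l1, nm_mul hG, nm_C, Par.nm_root hG, hd, Odd.neg_one_pow ⟨g, rfl⟩] at e2
  generalize Nm F (C (f.leadingCoeff : ℤ_[p]) * X + C e) = t at ut e2
  replace e2 : (f.leadingCoeff : ℚ_[p]) ^ (2 * g + 1) * (-1 * (iq p F).eval a) = t := e2
  have e3 : ((v : ℤ_[p]) : ℚ_[p]) * ((v⁻¹ : ℤ_[p]ˣ) : ℤ_[p]) = 1 := by
    rw [← PadicInt.coe_mul, v.mul_inv, PadicInt.coe_one]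
  have n0 : Nm (iq p F) x ≠ 0 := fun k => by
    rw [← e1, k] at e3
    simp at e3
  have key : ((f.leadingCoeff : ℚ_[p]) ^ (g + 1) / (s * Nm (iq p F) x)) ^ 2 *
      (f.leadingCoeff : ℚ_[p])⁻¹ * (δ * iq p F).eval a = ((-t * (v⁻¹ : ℤ_[p]ˣ) : ℤ_[p]) : ℚ_[p]) := by
    rw [eval_mul, PadicInt.coe_mul, PadicInt.coe_neg, ← e2, show δ.eval a =
      (s * Nm (iq p F) x) ^ 2 * ((v⁻¹ : ℤ_[p]ˣ) : ℤ_[p]) by
        linear_combination (-δ.eval a) * e3 - δ.eval a * ((v⁻¹ : ℤ_[p]ˣ) : ℤ_[p]) * e1 +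
          ((v⁻¹ : ℤ_[p]ˣ) : ℤ_[p]) * Nm (iq p F) x ^ 2 * hs]
    field_simp
    ring
  refine ⟨_, _, ut.neg.mul (Units.isUnit _), key, ?_⟩
  rintro ⟨r, hr, rfl⟩
  obtain ⟨k, hk⟩ := (hr.mul ut).exists_right_inv
  rw [eval_mul, eval_C] at key
  refine Par.int_of_sq (d := t * (v⁻¹ : ℤ_[p]ˣ) * k * f.leadingCoeff ^ (2 * g + 2)) ?_
  generalize (f.leadingCoeff : ℚ_[p]) ^ (g + 1) / (s * Nm (iq p F) x) = c at key
  have hk' : (r : ℚ_[p]) * t * k = 1 := by
    rw [← PadicInt.coe_mul, ← PadicInt.coe_mul, hk, PadicInt.coe_one]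
  rw [PadicInt.coe_mul, PadicInt.coe_neg] at key
  rw [PadicInt.coe_mul, PadicInt.coe_mul, PadicInt.coe_mul, PadicInt.coe_pow, PadicInt.coe_intCast]
  linear_combination (-c ^ 2) * hk' - c ^ 2 * r * k * e2 -
    k * (f.leadingCoeff : ℚ_[p]) ^ (2 * g + 2) * key +
    c ^ 2 * r * k * (f.leadingCoeff : ℚ_[p]) ^ (2 * g + 1) * (iq p F).eval a * mul_inv_cancel₀ h0

end Pool.Agent.MP_a43263_nt.VB

end
end MrgPart5

-- ======== part 6: formerly Pool.Agent.MP_a43263_nt.VB.Tri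
section MrgPart6

/-! THEOREM V, part B: triangular bases. -/

set_option autoImplicit false

noncomputable section

namespace Pool.Agent.MP_a43263_nt.VB

open Polynomial Finset Matrix JC VV
open UV (zK iq rq Nm Nx po)

theorem tri : TRIStmt := by
  intro p _ g f r ψ u hd hp du hw hn hl
  obtain ⟨m, t, mm, md, mq, -, tq, -, -⟩ := mon hp
  have h0 : (f.leadingCoeff : ℚ_[p]) ≠ 0 := Int.cast_ne_zero.2 fun k => hp (k ▸ dvd_zero _)
  have M := mf_monic h0
  have D : (mf f ℚ_[p]).natDegree = 2 * g + 2 := (mf_deg h0).trans hd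
  choose w hw using hw
  let P : Mat g ℚ_[p] := Matrix.of fun i j => (u j).coeff i.1
  have col : ∀ j, (po fun a => P a j) = u j := fun j =>
    UV.po_of_lt (by rw [du]; exact_mod_cast j.2)
  have up : ∀ i j : Fin (2 * g + 2), j < i → P i j = 0 := fun i j h =>
    coeff_eq_zero_of_degree_lt (by rw [du]; exact_mod_cast h)
  have dg : ∀ j, P j j = (u j).leadingCoeff := fun j => by
    rw [leadingCoeff, natDegree_eq_of_degree_eq_some (du j)]; rfl
  have ent : ∀ (y : ℤ_[p][X]) (i j), ((tb (2 * g + 2) m (y * w i j) : ℤ_[p]) : ℚ_[p]) =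
      (Pᵀ * Gn (2 * g + 2) (mf f ℚ_[p]) (iq p y * C r) * P) i j := fun y i j => by
    rw [Gn_entry, col, col]
    refine (tb_map mm PadicInt.Coe.ringHom _).symm.trans ?_
    rw [show m.map PadicInt.Coe.ringHom = mf f ℚ_[p] from mq, Polynomial.map_mul]
    refine (tb_congr M ?_).symm
    rw [show iq p y * C r * u i * u j - y.map PadicInt.Coe.ringHom * (w i j).map PadicInt.Coe.ringHom
      = iq p y * (C r * u i * u j - iq p (w i j)) by ring]
    exact ((mf_dvd h0).2 (hw i j)).mul_left _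
  have eA : iM p (Matrix.of fun i j => tb (2 * g + 2) m (C t * w i j)) = Pᵀ * GA g f (C r) * P := by
    ext i j
    refine (ent _ i j).trans ?_
    rw [iq, map_C, GA, ← tq]
    rfl
  refine ⟨P, ⟨_, Matrix.of fun i j => tb (2 * g + 2) m (X * w i j), eA, ?_, ?_,
    fun k => absurd k hp, False.elim⟩, fun v hv => ?_⟩
  · ext i j
    refine (ent _ i j).trans ?_
    rw [iq, map_X, GS, mul_comm X]
  · have e := congrArg det eA
    rw [iM, ← RingHom.mapMatrix_apply, ← RingHom.map_det, det_mul, det_mul, det_transpose,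
      det_of_upperTriangular (fun i j h => up i j h), prod_congr rfl fun j _ => dg j, GA, ← C_mul,
      ← mul_one (C (_ * r)), Gn_C_mul, det_smul, Fintype.card_fin] at e
    have n1 : ‖(f.leadingCoeff : ℚ_[p])‖ = 1 := PadicInt.isUnit_iff.1 (unit_lc hp)
    have n2 : ‖(Gn (2 * g + 2) (mf f ℚ_[p]) 1).det‖ = 1 := by
      rcases det_Gn_one M D with s | s <;> simp [s]
    refine PadicInt.isUnit_iff.2 ((congrArg norm e).trans ?_)
    rw [norm_mul, norm_pow] at hn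
    rw [norm_mul, norm_mul, norm_mul, n2, norm_pow, norm_mul, norm_inv, n1]
    linear_combination (‖r‖ ^ (g + 1) * ‖∏ j, (u j).leadingCoeff‖ + 1) * hn
  · have sm : po (P *ᵥ fun i => (v i : ℚ_[p])) = ∑ j, C (v j : ℚ_[p]) * u j := by
      simp only [← col, po, mulVec, dotProduct, map_sum, sum_mul, mul_sum, C_mul]
      rw [sum_comm]
      exact sum_congr rfl fun _ _ => sum_congr rfl fun _ _ => by ring
    have z : ∀ j : Fin (2 * g + 2), g + 1 ≤ j.1 → (v j : ℚ_[p]) = 0 := fun j => by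
      induction j using WellFoundedGT.induction with
      | _ j ih =>
        intro hj
        have c := coeff_eq_zero_of_degree_lt (hv.trans_le (Nat.cast_le.2 hj))
        rw [UV.po_coeff, mulVec, dotProduct, sum_eq_single j (fun k _ kj => by
          rcases lt_or_gt_of_ne kj with l | l
          · rw [up j k l, zero_mul]
          · rw [ih k l (hj.trans l.le), mul_zero]) (by simp), dg] at c
        exact (mul_eq_zero.1 c).resolve_left (leadingCoeff_ne_zero.2 fun e => by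
          simpa [e] using du j)
    have : ∀ j, ∃ y : ℤ_[p][X], C (v j : ℚ_[p]) * u j = iq p y ∧ ψ ∣ rq p y := fun j => by
      by_cases c : j.1 < g + 1
      · obtain ⟨y, a, b⟩ := hl j c
        exact ⟨C (v j) * y, by rw [a, iq, iq, Polynomial.map_mul, map_C]; rfl, by
          rw [rq, Polynomial.map_mul]; exact b.mul_left _⟩
      · exact ⟨0, by rw [z j (not_lt.1 c), C_0, zero_mul, iq, Polynomial.map_zero], by simp⟩
    choose y a b using this
    exact ⟨∑ j, y j, by rw [sm, iq, Polynomial.map_sum]; exact sum_congr rfl fun j _ => a j, by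
      rw [rq, Polynomial.map_sum]; exact dvd_sum fun j _ => b j⟩

end Pool.Agent.MP_a43263_nt.VB

end
end MrgPart6

-- ======== part 7: formerly Pool.Agent.MP_a43263_nt.VB.Locn
section MrgPart7

/-! THEOREM V, part B: the lattice at a prime where the order is not maximal. -/

set_option autoImplicit false

noncomputable section

namespace Pool.Agent.MP_a43263_nt.VB

open Polynomial Finset Matrix JC VV
open Pool.Agent.MP_a43263_nt.UV (zK iq rq Nm Nx po)

namespace Locn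

/-- the normal form -/
theorem normal {p : ℕ} {f : ℤ[X]} (hp : ¬(p : ℤ) ∣ f.leadingCoeff) (h : Nx p f) :
    ∃ φ a b c : ℤ[X], φ.Monic ∧ 0 < φ.natDegree ∧ b.degree < φ.natDegree ∧
      a.leadingCoeff = f.leadingCoeff ∧ f.natDegree = φ.natDegree + a.natDegree + φ.natDegree ∧
      f = φ ^ 2 * a + C (p : ℤ) * φ * b + C (p : ℤ) ^ 2 * c := by
  obtain ⟨φ, a, b, c, h1, h2, h3⟩ := h
  have e1 := modByMonic_add_div c φ
  have e2 := modByMonic_add_div (b + C (p : ℤ) * (c /ₘ φ)) φ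
  have d1 := degree_modByMonic_lt c h1
  have d2 := degree_modByMonic_lt (b + C (p : ℤ) * (c /ₘ φ)) h1
  generalize (b + C (p : ℤ) * (c /ₘ φ)) %ₘ φ = b0 at e2 d2
  generalize (b + C (p : ℤ) * (c /ₘ φ)) /ₘ φ = b1 at e2
  generalize c %ₘ φ = c0 at e1 d1
  generalize c /ₘ φ = c1 at e1 e2
  have e : f = φ ^ 2 * (a + C (p : ℤ) * b1) + C (p : ℤ) * φ * b0 + C (p : ℤ) ^ 2 * c0 := by
    linear_combination h3 - C (p : ℤ) ^ 2 * e1 - C (p : ℤ) * φ * e2
  generalize a + C (p : ℤ) * b1 = a0 at e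
  have ha : a0 ≠ 0 := by
    rintro rfl
    refine hp ((C_dvd_iff_dvd_coeff _ _).1 ⟨φ * b0 + C (p : ℤ) * c0, ?_⟩ _)
    linear_combination e
  have hφ := degree_eq_natDegree h1.ne_zero
  have hl : (C (p : ℤ) * φ * b0 + C (p : ℤ) ^ 2 * c0).degree < (φ ^ 2 * a0).degree := by
    have k : φ.degree + φ.degree ≤ (φ ^ 2 * a0).degree := by
      rw [degree_mul, pow_two, degree_mul]
      exact le_add_of_nonneg_right (zero_le_degree_iff.2 ha)
    refine lt_of_lt_of_le ((degree_add_le _ _).trans_lt (max_lt ?_ ?_)) k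
    · rw [mul_assoc, ← smul_eq_C_mul]
      refine (degree_smul_le _ _).trans_lt ((degree_mul_le _ _).trans_lt ?_)
      exact WithBot.add_lt_add_left (by rw [hφ]; simp) d2
    · rw [← C_pow, ← smul_eq_C_mul]
      refine (degree_smul_le _ _).trans_lt (d1.trans_le ?_)
      exact le_add_of_nonneg_right (zero_le_degree_iff.2 h1.ne_zero)
  refine ⟨φ, a0, b0, c0, h1, h2, hφ ▸ d2, ?_, ?_, e⟩
  · rw [e, add_assoc, leadingCoeff_add_of_degree_lt' hl, leadingCoeff_monic_mul (h1.pow 2)]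
  · rw [e, add_assoc, natDegree_eq_of_degree_eq (degree_add_eq_left_of_degree_lt hl),
      (h1.pow 2).natDegree_mul' ha, h1.natDegree_pow]
    omega

end Locn

theorem locn (h : TRIStmt) : LOCNStmt := by
  intro p _ g f hn h2 hp hx
  obtain ⟨φ, a, b, c, h1, he, hb, hl, hd, hf⟩ := Locn.normal hp hx
  have p0 : (p : ℚ_[p]) ≠ 0 := Nat.cast_ne_zero.2 (Fact.out : p.Prime).ne_zero
  have f0 : (f.leadingCoeff : ℚ_[p]) ≠ 0 := Int.cast_ne_zero.2 fun k => hp (k ▸ dvd_zero _)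
  obtain ⟨t, ht⟩ : ∃ t : ℤ_[p], t * 2 = 1 := by
    refine IsUnit.exists_left_inv (unit_of ?_)
    rw [map_ofNat]
    exact_mod_cast (ZMod.natCast_eq_zero_iff 2 p).not.2 fun k =>
      h2 ((Nat.prime_dvd_prime_iff_eq Fact.out Nat.prime_two).1 k)
  have ht' : C (t : ℚ_[p]) * 2 = 1 := by
    have : (t : ℚ_[p]) * 2 = 1 := by exact_mod_cast congrArg ((↑) : ℤ_[p] → ℚ_[p]) ht
    rw [← C_ofNat, ← C_mul, this, C_1]
  have hp' : C (p : ℚ_[p])⁻¹ * C (p : ℚ_[p]) = 1 := by rw [← C_mul, inv_mul_cancel₀ p0, C_1]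
  have hf' : zK f ℚ_[p] = zK φ ℚ_[p] ^ 2 * zK a ℚ_[p] + C (p : ℚ_[p]) * zK φ ℚ_[p] * zK b ℚ_[p] +
      C (p : ℚ_[p]) ^ 2 * zK c ℚ_[p] := by
    conv_lhs => rw [hf]
    simp only [Polynomial.map_add, Polynomial.map_mul, Polynomial.map_pow, map_natCast,
      Polynomial.map_natCast]
  have i1 : iq p (C (p : ℤ_[p])) = C (p : ℚ_[p]) := by rw [iq, map_C, map_natCast]
  have i2 : iq p (C t) = C (t : ℚ_[p]) := map_C _
  obtain ⟨ω, hω⟩ : ∃ ω, ω = C (p : ℚ_[p])⁻¹ * (zK φ ℚ_[p] * zK a ℚ_[p]) +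
    C (t : ℚ_[p]) * zK b ℚ_[p] := ⟨_, rfl⟩
  have m1 : (zK φ ℚ_[p]).Monic := h1.map _
  have n1 : (zK φ ℚ_[p]).degree = φ.natDegree := by
    rw [h1.degree_map, degree_eq_natDegree h1.ne_zero]
  have n2 : (C (p : ℚ_[p])⁻¹ * (zK φ ℚ_[p] * zK a ℚ_[p])).degree =
      (φ.natDegree + a.natDegree : ℕ) := by
    rw [degree_C_mul (inv_ne_zero p0), degree_mul, n1, degree_eq_natDegree (fun k => f0 (by
      rw [← hl, ← zK_lc (hl ▸ f0), k, leadingCoeff_zero])), zK_deg (hl ▸ f0), Nat.cast_add]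
  have n3 : (C (t : ℚ_[p]) * zK b ℚ_[p]).degree <
      (C (p : ℚ_[p])⁻¹ * (zK φ ℚ_[p] * zK a ℚ_[p])).degree := by
    rw [n2, ← smul_eq_C_mul]
    refine (degree_smul_le _ _).trans_lt (degree_map_le.trans_lt (hb.trans_le ?_))
    exact_mod_cast Nat.le_add_right _ _
  have n4 : ω.degree = (φ.natDegree + a.natDegree : ℕ) := by
    rw [hω, degree_add_eq_left_of_degree_lt n3, n2]
  have n5 : ω.leadingCoeff = (p : ℚ_[p])⁻¹ * f.leadingCoeff := by
    rw [hω, leadingCoeff_add_of_degree_lt' n3, leadingCoeff_mul, leadingCoeff_C,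
      leadingCoeff_monic_mul m1, zK_lc (hl ▸ f0), hl]
  have tab : ∀ s ∈ ({C (p : ℚ_[p]), zK φ ℚ_[p], ω} : Set ℚ_[p][X]),
      ∀ s' ∈ ({C (p : ℚ_[p]), zK φ ℚ_[p], ω} : Set ℚ_[p][X]),
      ∃ w : ℤ_[p][X], zK f ℚ_[p] ∣ s * s' - iq p w := by
    have t1 : ∃ w : ℤ_[p][X], zK f ℚ_[p] ∣ C (p : ℚ_[p]) * ω - iq p w :=
      ⟨zK φ _ * zK a _ + C (p : ℤ_[p]) * C t * zK b _, 0, by
        simp only [Polynomial.map_add, Polynomial.map_mul, i1, i2, UV.iq_zK, hω]
        linear_combination (zK φ ℚ_[p] * zK a ℚ_[p]) * hp'⟩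
    have t2 : ∃ w : ℤ_[p][X], zK f ℚ_[p] ∣ zK φ ℚ_[p] * ω - iq p w :=
      ⟨-(C t * zK φ _ * zK b _) - C (p : ℤ_[p]) * zK c _, C (p : ℚ_[p])⁻¹, by
        simp only [Polynomial.map_sub, Polynomial.map_neg, Polynomial.map_mul, i1, i2, UV.iq_zK,
          hω, hf']
        linear_combination (zK φ ℚ_[p] * zK b ℚ_[p]) * ht' -
          (zK φ ℚ_[p] * zK b ℚ_[p] + C (p : ℚ_[p]) * zK c ℚ_[p]) * hp'⟩
    have t3 : ∃ w : ℤ_[p][X], zK f ℚ_[p] ∣ ω * ω - iq p w :=
      ⟨C t * C t * zK b _ * zK b _ - zK a _ * zK c _, C (p : ℚ_[p])⁻¹ ^ 2 * zK a _, by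
        simp only [Polynomial.map_sub, Polynomial.map_mul, i2, UV.iq_zK, hω, hf']
        linear_combination (C (p : ℚ_[p])⁻¹ * zK φ ℚ_[p] * zK a ℚ_[p] * zK b ℚ_[p]) * ht' -
          (C (p : ℚ_[p])⁻¹ * zK φ ℚ_[p] * zK a ℚ_[p] * zK b ℚ_[p] +
            (C (p : ℚ_[p])⁻¹ * C (p : ℚ_[p]) + 1) * zK a ℚ_[p] * zK c ℚ_[p]) * hp'⟩
    have t0 : ∀ x y : ℤ_[p][X], ∃ w : ℤ_[p][X], zK f ℚ_[p] ∣ iq p x * iq p y - iq p w :=
      fun x y => ⟨x * y, by rw [iq, iq, iq, Polynomial.map_mul, sub_self]; exact dvd_zero _⟩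
    have i3 : iq p (zK φ ℤ_[p]) = zK φ ℚ_[p] := UV.iq_zK φ
    rintro s (rfl | rfl | rfl) s' (rfl | rfl | rfl)
    · exact i1 ▸ t0 _ _
    · exact i1 ▸ i3 ▸ t0 _ _
    · exact t1
    · exact i1 ▸ i3 ▸ t0 _ _
    · exact i3 ▸ t0 _ _
    · exact t2
    · exact mul_comm (C (p : ℚ_[p])) _ ▸ t1
    · exact mul_comm (zK φ ℚ_[p]) _ ▸ t2
    · exact t3
  let u : ℕ → ℚ_[p][X] := fun j => if j < φ.natDegree then C (p : ℚ_[p]) * X ^ j else
    if j < φ.natDegree + a.natDegree then zK φ ℚ_[p] * X ^ (j - φ.natDegree) else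
      ω * X ^ (j - (φ.natDegree + a.natDegree))
  have hu : ∀ j, ∃ s ∈ ({C (p : ℚ_[p]), zK φ ℚ_[p], ω} : Set ℚ_[p][X]), ∃ k, u j = s * X ^ k := by
    intro j
    simp only [u]
    split_ifs
    exacts [⟨_, Or.inl rfl, _, rfl⟩, ⟨_, Or.inr (Or.inl rfl), _, rfl⟩,
      ⟨_, Or.inr (Or.inr rfl), _, rfl⟩]
  refine (h p g f 1 (zK φ (ZMod p)) (fun j => u j) hn hp (fun j => ?_) (fun i j => ?_)
    ?_ fun j hj => ?_).elim fun P hP => ⟨P, _, hP.1, hP.2, by rwa [h1.natDegree_map]⟩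
  · simp only [u]
    split_ifs with a1 a2
    · exact degree_C_mul_X_pow _ p0
    · rw [degree_mul, n1, degree_X_pow, ← Nat.cast_add, Nat.add_sub_cancel' (not_lt.1 a1)]
    · rw [degree_mul, n4, degree_X_pow, ← Nat.cast_add, Nat.add_sub_cancel' (not_lt.1 a2)]
  · obtain ⟨s, hs, k, e⟩ := hu i
    obtain ⟨s', hs', k', e'⟩ := hu j
    obtain ⟨w, hw⟩ := tab s hs s' hs'
    refine ⟨w * X ^ (k + k'), ?_⟩
    rw [e, e', iq, Polynomial.map_mul, Polynomial.map_pow, map_X, C_1, pow_add,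
      show ∀ x y z : ℚ_[p][X], 1 * (s * x) * (s' * y) - z * (x * y) = (s * s' - z) * (x * y) from
        fun _ _ _ => by ring]
    exact hw.mul_right _
  · rw [one_pow, one_mul, Fin.prod_univ_eq_prod_range (fun j => (u j).leadingCoeff), ← hn, hd,
      prod_range_add, prod_range_add, prod_congr rfl (g := fun _ => (p : ℚ_[p])) fun j hj => ?_,
      prod_congr rfl (s₁ := range a.natDegree) (g := fun _ => 1) fun j hj => ?_,
      prod_congr rfl (f := fun j => (u (φ.natDegree + a.natDegree + j)).leadingCoeff)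
        (g := fun _ => (p : ℚ_[p])⁻¹ * f.leadingCoeff) fun j hj => ?_, prod_const_one, mul_one,
      ← prod_mul_distrib, prod_const, mul_inv_cancel_left₀ p0, norm_pow]
    · have : ‖(f.leadingCoeff : ℚ_[p])‖ = 1 := by
        exact_mod_cast PadicInt.isUnit_iff.1 (unit_lc hp)
      rw [this, one_pow]
    · simp only [u]
      rw [if_neg (by omega), if_neg (by omega), leadingCoeff_mul_X_pow, n5]
    · simp only [u]
      rw [if_neg (by omega), if_pos (by have := mem_range.1 hj; omega), leadingCoeff_mul_X_pow, m1]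
    · simp only [u]
      rw [if_pos (mem_range.1 hj), leadingCoeff_mul_X_pow, leadingCoeff_C]
  · simp only [u]
    split_ifs with a1 a2
    · refine ⟨C (p : ℤ_[p]) * X ^ j.1, by
        rw [iq, Polynomial.map_mul, Polynomial.map_pow, map_X, ← i1], ?_⟩
      rw [rq, Polynomial.map_mul, map_C, map_natCast, ZMod.natCast_self, C_0, zero_mul]
      exact dvd_zero _
    · refine ⟨zK φ _ * X ^ (j.1 - φ.natDegree), by
        rw [iq, Polynomial.map_mul, Polynomial.map_pow, map_X, UV.zK_map], ?_⟩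
      rw [rq, Polynomial.map_mul, UV.zK_map]
      exact dvd_mul_right _ _
    · omega

end Pool.Agent.MP_a43263_nt.VB

end
end MrgPart7

-- ======== part 8: formerly Pool.Agent.MP_a43263_nt.VB.Locs
section MrgPart8

/-! THEOREM V, part B: the prime where `f` is a constant times a square. -/

set_option autoImplicit false

namespace Pool.Agent.MP_a43263_nt.VB

open Polynomial Finset Matrix JC VV
open UV (zK iq rq Nm Nx po zK_map iq_zK)

namespace Locs

theorem lifted {p : ℕ} [Fact p.Prime] {g : ℕ} {f : ℤ[X]} (hd : f.natDegree = 2 * g + 2)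
    (hp : ¬(p : ℤ) ∣ f.leadingCoeff) (h : Sx p f) : ∃ G b : ℤ[X], G.Monic ∧ G.natDegree = g + 1 ∧
      f - C f.leadingCoeff * G ^ 2 = C (p : ℤ) * b := by
  obtain ⟨c, G, e⟩ := h
  have n0 := lc_ne hp
  have l := zK_lc n0
  have d := zK_deg n0
  rw [e] at l d
  rw [leadingCoeff_mul, leadingCoeff_C, leadingCoeff_pow] at l
  have c0 : c ≠ 0 := fun k => n0 (by rw [← l, k, zero_mul])
  have l0 : G.leadingCoeff ≠ 0 := fun k => n0 (by rw [← l, k]; simp)
  rw [natDegree_C_mul c0, natDegree_pow, hd] at d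
  obtain ⟨G0, h1, h2, h3⟩ := lifts_and_natDegree_eq_and_monic (f := Int.castRingHom (ZMod p))
    ((mem_lifts _).2 (lift p (G * C G.leadingCoeff⁻¹)))
    (monic_mul_leadingCoeff_inv (leadingCoeff_ne_zero.1 l0))
  rw [natDegree_mul_C (inv_ne_zero l0)] at h2
  obtain ⟨b, hb⟩ := dvd_of_zK (n := p) (P := f - C f.leadingCoeff * G0 ^ 2) (by
    rw [zK, Polynomial.map_sub, Polynomial.map_mul, Polynomial.map_pow, h1, map_C, eq_intCast, ← l,
      sub_eq_zero, mul_pow, ← C_pow, mul_left_comm, ← C_mul, mul_assoc, ← mul_pow,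
      mul_inv_cancel₀ l0, one_pow, mul_one, mul_comm]
    exact e)
  exact ⟨G0, b, h3, by omega, hb⟩

end Locs

theorem locs (h : TRIStmt) : LOCSStmt := by
  intro p _ g f hd hp hS
  obtain ⟨G, b, hG, dG, e⟩ := Locs.lifted hd hp hS
  obtain ⟨v, hv⟩ := (unit_lc hp).exists_left_inv
  have p0 : (p : ℚ_[p]) ≠ 0 := Nat.cast_ne_zero.2 (Fact.out : p.Prime).ne_zero
  have mG : (zK G ℚ_[p]).Monic := hG.map _
  have dG' : (zK G ℚ_[p]).natDegree = g + 1 := by rw [hG.natDegree_map, dG]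
  have e' : zK f ℚ_[p] - C (f.leadingCoeff : ℚ_[p]) * zK G ℚ_[p] ^ 2 =
      C (p : ℚ_[p]) * zK b ℚ_[p] := by
    simpa using congrArg (Polynomial.map (Int.castRingHom ℚ_[p])) e
  have hv' : C (v : ℚ_[p]) * C (f.leadingCoeff : ℚ_[p]) = 1 := by
    rw [← C_mul, ← C_1]
    exact congrArg C (by exact_mod_cast congrArg ((↑) : ℤ_[p] → ℚ_[p]) hv)
  have hp' : C (p : ℚ_[p])⁻¹ * C (p : ℚ_[p]) = 1 := by rw [← C_mul, inv_mul_cancel₀ p0, C_1]
  have iC : ∀ x : ℤ_[p], iq p (C x) = C (x : ℚ_[p]) := fun x => map_C _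
  have ip : iq p (C (p : ℤ_[p])) = C (p : ℚ_[p]) := by rw [iC]; rfl
  refine h p g f _ 0 (fun j => if j.1 < g + 1 then C (p : ℚ_[p]) * X ^ j.1 else
    zK G ℚ_[p] * X ^ (j.1 - (g + 1))) hd hp (fun j => ?_) (fun i j => ?_) ?_ fun j hj => ?_
  · split_ifs with hj
    · exact degree_C_mul_X_pow _ p0
    · rw [degree_mul, degree_X_pow, degree_eq_natDegree mG.ne_zero, dG', ← Nat.cast_add]
      congr 1
      omega
  · split_ifs with hi hj hj
    · refine ⟨C (p : ℤ_[p]) * X ^ i.1 * X ^ j.1, 0, ?_⟩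
      simp only [iq, Polynomial.map_mul, Polynomial.map_pow, map_X, ip]
      linear_combination (C (p : ℚ_[p]) * X ^ i.1 * X ^ j.1) * hp'
    · refine ⟨X ^ i.1 * zK G ℤ_[p] * X ^ (j.1 - (g + 1)), 0, ?_⟩
      simp only [iq, Polynomial.map_mul, Polynomial.map_pow, map_X, zK_map]
      linear_combination (X ^ i.1 * zK G ℚ_[p] * X ^ (j.1 - (g + 1))) * hp'
    · refine ⟨X ^ j.1 * zK G ℤ_[p] * X ^ (i.1 - (g + 1)), 0, ?_⟩
      simp only [iq, Polynomial.map_mul, Polynomial.map_pow, map_X, zK_map]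
      linear_combination (X ^ j.1 * zK G ℚ_[p] * X ^ (i.1 - (g + 1))) * hp'
    · refine ⟨-(C v * zK b ℤ_[p] * X ^ (i.1 - (g + 1)) * X ^ (j.1 - (g + 1))),
        C (p : ℚ_[p])⁻¹ * C (v : ℚ_[p]) * X ^ (i.1 - (g + 1)) * X ^ (j.1 - (g + 1)), ?_⟩
      simp only [iq, Polynomial.map_mul, Polynomial.map_pow, Polynomial.map_neg, map_X, zK_map, iC]
      generalize (X : ℚ_[p][X]) ^ (i.1 - (g + 1)) = A
      generalize (X : ℚ_[p][X]) ^ (j.1 - (g + 1)) = B
      linear_combination (-(C (p : ℚ_[p])⁻¹ * C (v : ℚ_[p]) * A * B)) * e' -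
        (C (p : ℚ_[p])⁻¹ * zK G ℚ_[p] ^ 2 * A * B) * hv' -
        (C (v : ℚ_[p]) * zK b ℚ_[p] * A * B) * hp'
  · have k : ∀ j : Fin (2 * g + 2), (if j.1 < g + 1 then C (p : ℚ_[p]) * X ^ j.1 else
        zK G ℚ_[p] * X ^ (j.1 - (g + 1))).leadingCoeff =
        if j.1 < g + 1 then (p : ℚ_[p]) else 1 := fun j => by
      split_ifs
      · exact leadingCoeff_C_mul_X_pow _ _
      · exact mG.mul (monic_X_pow _)
    rw [prod_congr rfl fun j _ => k j, Fin.prod_univ_eq_prod_range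
      (fun j => if j < g + 1 then (p : ℚ_[p]) else 1), show 2 * g + 2 = g + 1 + (g + 1) by ring,
      prod_range_add, prod_congr rfl fun j hj => if_pos (mem_range.1 hj),
      prod_congr rfl fun j _ => if_neg (show ¬g + 1 + j < g + 1 by omega), prod_const, card_range,
      prod_const_one, mul_one, ← mul_pow, inv_mul_cancel₀ p0, one_pow, norm_one]
  · refine ⟨C (p : ℤ_[p]) * X ^ j.1, ?_, ?_⟩
    · simp only [if_pos hj, iq, Polynomial.map_mul, Polynomial.map_pow, map_X, ip]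
    · simp [rq]

end Pool.Agent.MP_a43263_nt.VB

end MrgPart8

-- ======== part 9: formerly Pool.Agent.MP_a43263_nt.VB.Scale
section MrgPart9

/-! THEOREM V, part B: scaling of the class by a rational number. -/

set_option autoImplicit false

noncomputable section

namespace Pool.Agent.MP_a43263_nt.VB

open Polynomial Finset Matrix JC VV
open UV (zK iq rq Nm Nx po zK_map fK_zK)

namespace Scale

theorem clear (P : ℚ[X]) : ∃ (n : ℤ) (Q : ℤ[X]), n ≠ 0 ∧ zK Q ℚ = C (n : ℚ) * P := by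
  obtain ⟨b, hb, e⟩ := IsLocalization.integerNormalization_spec (nonZeroDivisors ℤ) P
  exact ⟨b, _, nonZeroDivisors.ne_zero hb, e.trans (by rw [zsmul_eq_mul, C_eq_intCast])⟩

variable {p : ℕ} [Fact p.Prime]

theorem red_ne {t : ℤ_[p]} (h : ‖t‖ = 1) : IsUnit (C (PadicInt.toZMod t)) :=
  isUnit_C.2 ((PadicInt.isUnit_iff.2 h).map _)

/-- the constant may be replaced by any constant of the same norm -/
theorem loc {f : ℤ[X]} {b : Prop} {δ x : ℚ_[p][X]} {r c : ℚ_[p]} {w : ℤ_[p][X]} (hr : r ≠ 0)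
    (hc : ‖c‖ = ‖r‖) (h1 : zK f ℚ_[p] ∣ δ * x ^ 2 * C r - iq p w)
    (h2 : IsCoprime (rq p w) (zK f (ZMod p)))
    (h3 : b → IsSquare ((rq p w).eval 0 * (rq p w).eval 1)) : E1 p f b (C c * δ) x := by
  have n1 : ‖c / r‖ = 1 := by rw [norm_div, hc, div_self (norm_ne_zero_iff.2 hr)]
  obtain ⟨t, ht⟩ : ∃ t : ℤ_[p], (t : ℚ_[p]) = c / r := ⟨⟨c / r, n1.le⟩, rfl⟩
  have e1 : iq p (C t * w) = C (c / r) * iq p w := by
    rw [iq, Polynomial.map_mul, map_C, ← ht]
    rfl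
  have e2 : rq p (C t * w) = C (PadicInt.toZMod t) * rq p w := by
    rw [rq, Polynomial.map_mul, map_C]
  have e3 : C c = C (c / r) * C r := by rw [← C_mul, div_mul_cancel₀ _ hr]
  refine ⟨C t * w, ?_, ?_, fun hb => ?_⟩
  · rw [e1, e3, show C (c / r) * C r * δ * x ^ 2 - C (c / r) * iq p w =
      C (c / r) * (δ * x ^ 2 * C r - iq p w) by ring]
    exact h1.mul_left _
  · rw [e2, isCoprime_mul_unit_left_left (red_ne (by rw [PadicInt.norm_def, ht, n1]))]
    exact h2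
  · rw [e2, eval_C_mul, eval_C_mul, mul_mul_mul_comm]
    exact (IsSquare.mul_self _).mul (h3 hb)

theorem norm_prod_zpow (S : Finset ℕ) (hS : ∀ l ∈ S, l.Prime) (k : ℕ → ℤ) :
    ‖((∏ l ∈ S, (l : ℚ) ^ k l : ℚ) : ℚ_[p])‖ = if p ∈ S then (p : ℝ) ^ (-k p) else 1 := by
  have h1 : ∀ l ∈ S, l ≠ p → ‖(l : ℚ_[p]) ^ k l‖ = 1 := fun l hl hp => by
    rw [norm_zpow, Padic.norm_natCast_eq_one_iff.2
      ((Nat.coprime_primes Fact.out (hS l hl)).2 hp.symm), _root_.one_zpow]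
  push_cast
  rw [norm_prod]
  split_ifs with h
  · rw [prod_eq_single_of_mem p h h1, Padic.norm_p_zpow]
  · exact prod_eq_one fun l hl => h1 l hl fun e => h (e ▸ hl)

theorem norm_int {n : ℤ} (h : ¬(p : ℤ) ∣ n) : ‖(n : ℚ_[p])‖ = 1 :=
  le_antisymm (Padic.norm_int_le_one n) (not_lt.1 fun c => h (Padic.norm_intCast_lt_one_iff.1 c))

end Scale

open Scale

theorem scale : SCALEStmt := by
  intro g f Q hd hS
  simp only [Str, not_forall] at hS
  obtain ⟨δ, hc, hn, hE, hN, hq⟩ := hS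
  have hl : (f.leadingCoeff : ℚ) ≠ 0 := Int.cast_ne_zero.2 (leadingCoeff_ne_zero.2 fun e => by
    rw [e, natDegree_zero] at hd
    omega)
  have L : ∀ p : ℕ, ∃ k : ℤ, ∀ [Fact p.Prime] (c : ℚ_[p]), ‖c‖ = (p : ℝ) ^ (-k) →
      ∃ x, E1 p f (p ∈ Q) (C c * fK δ ℚ_[p]) x := fun p => by
    by_cases hp : p.Prime
    · have := Fact.mk hp
      by_cases hQ : p ∈ Q
      · obtain ⟨x, r, w, h0, h1, h2, h3⟩ := hN p hQ
        rw [ZMod.val_zero, pow_zero, mul_one] at h1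
        exact ⟨r.valuation, fun c e => ⟨x, loc h0
          (e.trans (Padic.norm_eq_zpow_neg_valuation h0).symm) h1 h2 fun _ => h3.2 rfl⟩⟩
      · obtain ⟨x, r, w, h0, h1, h2⟩ := hE p
        exact ⟨r.valuation, fun c e => ⟨x, loc h0
          (e.trans (Padic.norm_eq_zpow_neg_valuation h0).symm) h1 h2 fun h => absurd h hQ⟩⟩
    · exact ⟨0, fun c => absurd Fact.out hp⟩
  choose k hk using L
  obtain ⟨n₁, d₁, z₁, e₁⟩ := clear δ
  obtain ⟨a, b, e⟩ : IsCoprime (zK d₁ ℚ) (zK f ℚ) := by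
    rw [e₁, isCoprime_mul_unit_left_left (isUnit_C.2 (Int.cast_ne_zero.2 z₁).isUnit)]
    exact hc
  obtain ⟨n₂, a₁, z₂, e₂⟩ := clear a
  obtain ⟨n₃, b₁, z₃, e₃⟩ := clear b
  have bez : C n₃ * a₁ * d₁ + C n₂ * b₁ * f = C (n₂ * n₃) :=
    Polynomial.map_injective _ (RingHom.injective_int (Int.castRingHom ℚ)) (by
      simp only [Polynomial.map_add, Polynomial.map_mul, map_C, C_mul]
      change C (n₃ : ℚ) * zK a₁ ℚ * zK d₁ ℚ + C (n₂ : ℚ) * zK b₁ ℚ * zK f ℚ =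
        C (n₂ : ℚ) * C (n₃ : ℚ)
      rw [e₂, e₃]
      linear_combination C (n₂ : ℚ) * C (n₃ : ℚ) * e)
  obtain ⟨N, hN'⟩ : ∃ N : ℤ, N = n₁ * (n₂ * n₃) * ∏ q ∈ Q.filter Nat.Prime, (q : ℤ) := ⟨_, rfl⟩
  have N0 : N ≠ 0 := hN' ▸ mul_ne_zero (mul_ne_zero z₁ (mul_ne_zero z₂ z₃))
    (prod_ne_zero_iff.2 fun q h => Nat.cast_ne_zero.2 (mem_filter.1 h).2.ne_zero)
  obtain ⟨c, hc'⟩ : ∃ c : ℚ, c = ∏ l ∈ N.natAbs.primeFactors, (l : ℚ) ^ k l := ⟨_, rfl⟩
  have c0 : c ≠ 0 := hc' ▸ prod_ne_zero_iff.2 fun l h =>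
    zpow_ne_zero _ (Nat.cast_ne_zero.2 (Nat.prime_of_mem_primeFactors h).ne_zero)
  refine ⟨C c * δ, N, N0, (isCoprime_mul_unit_left_left (isUnit_C.2 c0.isUnit) _ _).2 hc, ?_,
    fun ⟨r, z, r0, h⟩ => hq ⟨c⁻¹ * r, z, mul_ne_zero (inv_ne_zero c0) r0, ?_⟩, fun p _ => ?_⟩
  · rw [nm_mul (mf_monic hl), nm_C, mf_deg hl, hd]
    exact IsSquare.mul ⟨c ^ (g + 1), by ring⟩ hn
  · have := h.mul_left (C c⁻¹)
    rwa [mul_sub, ← mul_assoc, ← mul_assoc, ← C_mul, ← C_mul, inv_mul_cancel₀ c0, C_1,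
      one_mul] at this
  have ef : fK (C c * δ) ℚ_[p] = C (c : ℚ_[p]) * fK δ ℚ_[p] := by
    rw [fK, Polynomial.map_mul, map_C, eq_ratCast]
  have nc := norm_prod_zpow (p := p) N.natAbs.primeFactors
    (fun l h => Nat.prime_of_mem_primeFactors h) k
  rw [← hc'] at nc
  rw [ef]
  by_cases hp : (p : ℤ) ∣ N
  · rw [if_pos (Nat.mem_primeFactors.2 ⟨Fact.out, Int.natCast_dvd.1 hp,
      Int.natAbs_ne_zero.2 N0⟩)] at nc
    obtain ⟨x, hx⟩ := hk p _ nc
    exact ⟨x, hx, fun h => absurd hp h⟩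
  · rw [if_neg fun h => hp (Int.natCast_dvd.2 (Nat.dvd_of_mem_primeFactors h))] at nc
    have p1 : ¬(p : ℤ) ∣ n₁ := fun h => hp (hN' ▸ (h.mul_right _).mul_right _)
    have p2 : ¬(p : ℤ) ∣ n₂ * n₃ := fun h => hp (hN' ▸ (h.mul_left _).mul_right _)
    have p3 : p ∉ Q := fun h => hp (hN' ▸
      (dvd_prod_of_mem (fun q : ℕ => (q : ℤ)) (mem_filter.2 ⟨h, Fact.out⟩)).mul_left _)
    refine ⟨1, loc (r := (n₁ : ℚ_[p])) (w := zK d₁ ℤ_[p]) (Int.cast_ne_zero.2 z₁)
      (nc.trans (norm_int p1).symm) ?_ ?_ fun h => absurd h p3, fun _ => rfl⟩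
    · rw [UV.iq_zK, ← fK_zK d₁, e₁, fK, fK, Polynomial.map_mul, map_C, map_intCast (Rat.castHom ℚ_[p]), one_pow,
        mul_one, mul_comm, sub_self]
      exact dvd_zero _
    · have u : ((n₂ * n₃ : ℤ) : ZMod p) ≠ 0 := fun h =>
        p2 ((ZMod.intCast_zmod_eq_zero_iff_dvd _ p).1 h)
      have := congrArg (Polynomial.map (Int.castRingHom (ZMod p))) bez
      rw [Polynomial.map_add, Polynomial.map_mul (q := d₁), Polynomial.map_mul (q := f),
        map_C (a := n₂ * n₃), eq_intCast (Int.castRingHom _)] at this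
      rw [UV.rq_zK]
      refine ⟨C ((n₂ * n₃ : ℤ) : ZMod p)⁻¹ * zK (C n₃ * a₁) _,
        C ((n₂ * n₃ : ℤ) : ZMod p)⁻¹ * zK (C n₂ * b₁) _, ?_⟩
      rw [mul_assoc, mul_assoc, ← mul_add, this, ← C_mul, inv_mul_cancel₀ u, C_1]

end Pool.Agent.MP_a43263_nt.VB

end
end MrgPart9

-- ======== part 10: formerly Pool.Agent.MP_a43263_nt.VB.Dsq
section MrgPart10

/-! THEOREM V, part B: distinguished subspaces of the lattice and the determinant. -/

set_option autoImplicit false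

noncomputable section

namespace Pool.Agent.MP_a43263_nt.VB

open Polynomial Finset Matrix JC VV
open UV (zK iq rq Nm Nx po po_inj po_of_lt po_degree)

namespace Dsq

theorem po_sum {n k : ℕ} (c : Fin k → ℚ) (x : Fin k → Fin n → ℚ) :
    po (∑ i, c i • x i) = ∑ i, C (c i) * po (x i) := by
  simp only [po, Finset.sum_apply, Pi.smul_apply, smul_eq_mul, map_sum, sum_mul, mul_sum, C_mul,
    mul_assoc]
  exact sum_comm

/-- independence over the rational numbers -/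
theorem indQ {k n : ℕ} {e : Fin k → Fin n → ℤ} (h : LinearIndependent ℤ e) :
    LinearIndependent ℚ fun i a => (e i a : ℚ) := by
  rw [← LinearIndependent.iff_fractionRing ℤ ℚ, Fintype.linearIndependent_iff]
  intro z hz
  refine Fintype.linearIndependent_iff.1 h z (funext fun a => ?_)
  have := congrFun hz a
  simp only [Finset.sum_apply, Pi.smul_apply, Pi.zero_apply] at this ⊢
  simp only [zsmul_eq_mul, Int.cast_id] at this ⊢
  exact_mod_cast this

/-- independence modulo `m` -/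
theorem indM {g : ℕ} {γ : Mat g ℚ} (hγ : γ.det ≠ 0) {e : Fin (g + 1) → Fin (2 * g + 2) → ℤ}
    (h : LinearIndependent ℤ e) {m : ℚ[X]} (hm : m.Monic) (hd : m.natDegree = 2 * g + 2)
    (z : Fin (g + 1) → ℚ) (hz : m ∣ ∑ i, C (z i) * pz γ (e i)) : z = 0 := by
  have e1 : ∑ i, C (z i) * pz γ (e i) = po (γ *ᵥ ∑ i, z i • fun a => (e i a : ℚ)) := by
    rw [mulVec_sum]
    simp only [mulVec_smul, po_sum, pz]
  rw [e1] at hz
  exact funext (Fintype.linearIndependent_iff.1 (indQ h) z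
    (eq_zero_of_mulVec_eq_zero hγ (po_inj hm hd hz)))

theorem lc0 {f : ℤ[X]} {g : ℕ} (hd : f.natDegree = 2 * g + 2) : (f.leadingCoeff : ℚ) ≠ 0 :=
  Int.cast_ne_zero.2 (leadingCoeff_ne_zero.2 fun k => by simp [k] at hd)

theorem pz_eq {g : ℕ} {γ : Mat g ℚ} {e : Fin (g + 1) → Fin (2 * g + 2) → ℤ} {i : Fin (g + 1)}
    (h : (pz γ (e i)).degree < (g + 1 : ℕ)) : pz γ (e i) = ∑ k, C (cm γ e i k) * X ^ k.1 :=
  (po_of_lt h).symm

end Dsq

open Dsq

theorem dsq (h1 : UNIQStmt) (h2 : NOQStmt) : DSQStmt := by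
  intro g f δ γ A T e hf hδ hL hD
  have l0 := lc0 hf.deg
  have hm := mf_monic l0
  have hd := (mf_deg l0).trans hf.deg
  have hi : Irreducible (mf f ℚ) := by
    rw [mf_eq l0]
    exact (irreducible_isUnit_mul (isUnit_C.2 (inv_ne_zero l0).isUnit)).2 hf.irr
  have hc : IsCoprime (C (f.leadingCoeff : ℚ)⁻¹ * δ) (mf f ℚ) :=
    (isCoprime_mul_unit_left_left (isUnit_C.2 (inv_ne_zero l0).isUnit) _ _).2
      ((mf_coprime l0).2 hδ)
  have k1 : ∀ i j, ((e i ⬝ᵥ (A * T) *ᵥ e j : ℤ) : ℚ) = f.leadingCoeff * tb (2 * g + 2) (mf f ℚ)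
      (C (f.leadingCoeff : ℚ)⁻¹ * δ * X * pz γ (e i) * pz γ (e j)) := fun i j => by
    have := hL.2 1 (e i) (e j)
    rw [pow_one, pow_one] at this
    rw [this, ← tb_C_mul]
    exact congrArg _ (by ring)
  obtain ⟨x, c, hx, hxc, hu⟩ := h1 ℚ g (mf f ℚ) (C (f.leadingCoeff : ℚ)⁻¹ * δ)
    (fun i => pz γ (e i)) hm hd hi hc (indM hL.1 hD.ind hm hd) (fun i j => by
      have := hL.2 0 (e i) (e j)
      rw [pow_zero, pow_zero, Matrix.mul_one, mul_one, hD.iso] at this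
      exact_mod_cast this.symm) (fun i j k l => by
      have := congrArg (Int.cast : ℤ → ℚ) (hD.rk i j k l)
      rw [Int.cast_mul, Int.cast_mul, k1, k1, k1, k1] at this
      exact mul_left_cancel₀ (pow_ne_zero 2 l0) (by linear_combination this))
  have c0 : c ≠ 0 := by
    rintro rfl
    rw [C_0, sub_zero] at hxc
    exact hx (hi.prime.dvd_of_dvd_pow (hc.symm.dvd_of_dvd_mul_left hxc))
  have e0 : C (f.leadingCoeff : ℚ) * C (f.leadingCoeff : ℚ)⁻¹ = (1 : ℚ[X]) := by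
    rw [← C_mul, mul_inv_cancel₀ l0, C_1]
  obtain ⟨a, b, hab⟩ := hi.coprime_iff_not_dvd.2 hx
  obtain ⟨w, hw⟩ := hxc
  refine ⟨⟨f.leadingCoeff * c, b, mul_ne_zero l0 c0, (mf_dvd l0).1
    ⟨C (f.leadingCoeff : ℚ) * b ^ 2 * w + δ * a * (1 + b * x), ?_⟩⟩, ?_⟩
  · rw [C_mul]
    linear_combination C (f.leadingCoeff : ℚ) * b ^ 2 * hw - δ * (1 + b * x) * hab -
      δ * x ^ 2 * b ^ 2 * e0
  · rintro ⟨r, rfl⟩ i
    have r0 : r ≠ 0 := by
      rintro rfl
      rw [C_0, isCoprime_zero_left] at hδ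
      exact hf.irr.not_isUnit hδ
    have e1 : C r⁻¹ * C r = (1 : ℚ[X]) := by rw [← C_mul, inv_mul_cancel₀ r0, C_1]
    obtain ⟨t, ht⟩ := h2 g f x (r⁻¹ * f.leadingCoeff * c) hf ((mf_dvd l0).1
      ⟨C r⁻¹ * C (f.leadingCoeff : ℚ) * w, by
        rw [C_mul, C_mul]
        linear_combination C r⁻¹ * C (f.leadingCoeff : ℚ) * hw - x ^ 2 * C r⁻¹ * C r * e0 -
          x ^ 2 * e1⟩)
    obtain ⟨z, hz, hz'⟩ := hu i
    have l : (C t * z).degree < (g + 1 : ℕ) := by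
      rw [← smul_eq_C_mul]
      exact (degree_smul_le t z).trans_lt hz
    have e2 : pz γ (e i) - C t * z = 0 := by
      refine eq_zero_of_dvd_of_degree_lt (p := mf f ℚ) ?_ ?_
      · have := dvd_add hz' (((mf_dvd l0).2 ht).mul_right z)
        rwa [show pz γ (e i) - x * z + (x - C t) * z = pz γ (e i) - C t * z by ring] at this
      · rw [degree_eq_natDegree hm.ne_zero, hd]
        exact (degree_sub_le _ _).trans_lt (max_lt (po_degree _)
          (l.trans (by exact_mod_cast by omega)))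
    rwa [sub_eq_zero.1 e2]

theorem detc : DETStmt := by
  intro g f r γ A T e hf hL hi hu
  have l0 := lc0 hf
  have hm := mf_monic l0
  have hd := (mf_deg l0).trans hf
  refine ⟨fun k => ?_, ?_⟩
  · obtain ⟨v, v0, hv⟩ := exists_vecMul_eq_zero_iff.2 k
    refine v0 (indM hL.1 hi hm hd v ?_)
    have : ∑ i, C (v i) * pz γ (e i) = ∑ k, C ((v ᵥ* cm γ e) k) * X ^ k.1 := by
      simp only [pz_eq (hu _), vecMul, dotProduct, map_sum, mul_sum, sum_mul, C_mul, mul_assoc]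
      exact sum_comm
    rw [this, hv]
    simp
  · let H : Matrix (Fin (g + 1)) (Fin (g + 1)) ℚ := Matrix.of fun k l =>
      r * (f.leadingCoeff : ℚ) ^ g * tb (2 * g + 2) (mf f ℚ) (X ^ (g + 1 + (k.1 + l.1)))
    have e0 : C (f.leadingCoeff : ℚ)⁻¹ * C (f.leadingCoeff : ℚ) = (1 : ℚ[X]) := by
      rw [← C_mul, inv_mul_cancel₀ l0, C_1]
    have e1 : (Int.castRingHom ℚ).mapMatrix
        (Matrix.of fun i j => e i ⬝ᵥ (A * T ^ (g + 1)) *ᵥ e j) = cm γ e * H * (cm γ e)ᵀ := by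
      ext i j
      rw [RingHom.mapMatrix_apply, map_apply, of_apply, eq_intCast, hL.2, pz_eq (hu i),
        pz_eq (hu j)]
      simp only [Matrix.mul_apply, transpose_apply, mul_sum, sum_mul, tb_sum, H, of_apply]
      refine sum_congr rfl fun l _ => sum_congr rfl fun k _ => ?_
      rw [show ∀ a b c d y : ℚ, a * (b * c * y) * d = a * b * c * d * y from
        fun _ _ _ _ _ => by ring, ← tb_C_mul]
      refine congrArg _ ?_
      simp only [C_mul, C_pow]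
      linear_combination (C r * C (f.leadingCoeff : ℚ) ^ g * X ^ (g + 1) * (C (cm γ e i k) *
        X ^ k.1) * (C (cm γ e j l) * X ^ l.1)) * e0
    have e2 := det_anti (H := H) (c := r * (f.leadingCoeff : ℚ) ^ g)
      (fun i j h => by
        simp only [H, of_apply]
        rw [tb_X_pow hm hd (by omega), if_neg (by omega), mul_zero])
      (fun i j h => by
        simp only [H, of_apply]
        rw [tb_X_pow hm hd (by omega), if_pos (by omega), mul_one])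
    have e3 : |H.det| = |r| ^ (g + 1) * |(f.leadingCoeff : ℚ)| ^ (g * (g + 1)) := by
      rw [pow_mul, ← mul_pow, ← abs_pow, ← abs_mul, ← abs_pow]
      rcases e2 with s | s <;> rw [s]
      exact abs_neg _
    rw [← eq_intCast (Int.castRingHom ℚ), RingHom.map_det, e1, det_mul, det_mul, det_transpose,
      mul_right_comm, abs_mul, e3, ← sq, abs_sq, mul_comm]

end Pool.Agent.MP_a43263_nt.VB

end
end MrgPart10

-- ======== part 11: formerly Pool.Agent.MP_a43263_nt.VB.Intc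
section MrgPart11

/-! THEOREM V, part B: the coefficients of lattice vectors of small degree are integers. -/

set_option autoImplicit false

noncomputable section

namespace Pool.Agent.MP_a43263_nt.VB

open Polynomial Finset Matrix JC VV
open UV (zK iq rq Nm Nx po)

namespace Intc

theorem po_map {R S : Type} [CommRing R] [CommRing S] (φ : R →+* S) {n : ℕ} (z : Fin n → R) :
    (po z).map φ = po fun i => φ (z i) := by
  simp [po, Polynomial.map_sum]

theorem low {l : ℕ} [Fact l.Prime] {g : ℕ} {γ : Mat g ℚ} {φ : (ZMod l)[X]}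
    (h : Low l g φ (qM l γ)) {x : Fin (2 * g + 2) → ℤ} (hx : (pz γ x).degree < (g + 1 : ℕ)) :
    ∃ w : ℤ_[l][X], (pz γ x).map (algebraMap ℚ ℚ_[l]) = iq l w ∧ φ ∣ rq l w := by
  have e : po (qM l γ *ᵥ fun i => (((x i : ℤ) : ℤ_[l]) : ℚ_[l])) =
      (pz γ x).map (algebraMap ℚ ℚ_[l]) := by
    rw [pz, po_map]
    congr 1
    funext i
    simp [Matrix.mulVec, dotProduct]
  have := h (fun i => (x i : ℤ_[l])) (by rw [e, Polynomial.degree_map]; exact hx)
  rwa [e] at this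

theorem int_of {q : ℚ} (h : ∀ (l : ℕ) [Fact l.Prime], ‖(q : ℚ_[l])‖ ≤ 1) : ∃ z : ℤ, q = z := by
  refine ⟨q.num, ((Rat.den_eq_one_iff q).1 ?_).symm⟩
  by_contra hc
  obtain ⟨l, hl, hd⟩ := Nat.exists_prime_and_dvd hc
  have := Fact.mk hl
  have h1 := PadicInt.isUnit_iff.1 (PadicInt.isUnit_den q (h l))
  have h2 : ‖((q.den : ℤ) : ℤ_[l])‖ < 1 :=
    (PadicInt.norm_int_lt_one_iff_dvd _).2 (Int.natCast_dvd_natCast.2 hd)
  rw [Int.cast_natCast, h1] at h2
  exact lt_irrefl _ h2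

end Intc

theorem intc : INTCStmt := by
  intro p _ g γ ψ e hdeg hall hp
  have h1 : ∀ (i k : Fin (g + 1)), ∃ z : ℤ, cm γ e i k = z := fun i k => by
    refine Intc.int_of fun l _ => ?_
    obtain ⟨φ, hφ⟩ := hall l
    obtain ⟨w, hw, _⟩ := Intc.low hφ (hdeg i)
    have := congrArg (coeff · k.1) hw
    simp only [Polynomial.coeff_map, eq_ratCast] at this
    rw [cm, Matrix.of_apply, this]
    exact (w.coeff k.1).2
  choose c hc using h1
  have h2 : cm γ e = (Int.castRingHom ℚ).mapMatrix (Matrix.of c) := by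
    ext i k; simp [hc]
  have h3 : ∀ i, ψ ∣ po fun k => (c i k : ZMod p) := fun i => by
    obtain ⟨w, hw, hψ⟩ := Intc.low hp (hdeg i)
    have e1 : pz γ (e i) = zK (po (c i)) ℚ := by
      refine (UV.po_of_lt (hdeg i)).symm.trans (Eq.trans ?_ (Intc.po_map _ _).symm)
      congr 1
      funext k
      exact hc i k
    rw [e1, UV.zK_map, ← UV.iq_zK] at hw
    rw [← UV.iq_inj hw, UV.rq_zK] at hψ
    exact hψ.trans (dvd_of_eq (Intc.po_map _ _))
  refine ⟨(Matrix.of c).det, by rw [h2, ← RingHom.map_det]; rfl, fun h0 => ?_, fun h0 => ?_⟩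
  · by_contra hd
    let cb : Matrix (Fin (g + 1)) (Fin (g + 1)) (ZMod p) :=
      (Int.castRingHom (ZMod p)).mapMatrix (Matrix.of c)
    have hu : IsUnit cb.det := by
      rw [← RingHom.map_det, isUnit_iff_ne_zero]
      exact fun h => hd ((ZMod.intCast_zmod_eq_zero_iff_dvd _ _).1 h)
    have hm := Matrix.nonsing_inv_mul cb hu
    have h4 : ψ ∣ ∑ i, C (cb⁻¹ 0 i) * po fun k => (c i k : ZMod p) :=
      Finset.dvd_sum fun i _ => (h3 i).mul_left _
    have h5 : (∑ i, C (cb⁻¹ 0 i) * po fun k => (c i k : ZMod p)) =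
        po fun k => (cb⁻¹ * cb) 0 k := by
      simp only [po, Finset.mul_sum, Matrix.mul_apply, map_sum, Finset.sum_mul]
      rw [Finset.sum_comm]
      refine Finset.sum_congr rfl fun k _ => Finset.sum_congr rfl fun i _ => ?_
      rw [C_mul, mul_assoc]; rfl
    have h6 : (po fun k => (1 : Matrix (Fin (g + 1)) (Fin (g + 1)) (ZMod p)) 0 k) = 1 := by
      rw [po, Finset.sum_eq_single 0]
      · simp
      · intro k _ hk; simp [Matrix.one_apply_ne hk.symm]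
      · simp
    rw [h5, hm, h6] at h4
    have := Polynomial.natDegree_eq_zero_of_isUnit (isUnit_of_dvd_one h4)
    omega
  · have h4 : ∀ i k, (p : ℤ) ∣ c i k := fun i k => by
      have h5 := h3 i
      rw [h0, zero_dvd_iff] at h5
      have h6 := UV.po_coeff (fun k => (c i k : ZMod p)) k
      rw [h5, coeff_zero] at h6
      exact (ZMod.intCast_zmod_eq_zero_iff_dvd _ _).1 h6.symm
    choose c2 hc2 using h4
    have h5 : Matrix.of c = (p : ℤ) • Matrix.of c2 := by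
      ext i k; simp [hc2]
    rw [h5, Matrix.det_smul, Fintype.card_fin]
    exact Dvd.intro _ rfl

end Pool.Agent.MP_a43263_nt.VB

end
end MrgPart11

-- ======== part 12: formerly Pool.Agent.MP_a43263_nt.VB.All
section MrgPart12

/-! THEOREM V, part B. -/

namespace Pool.Agent.MP_a43263_nt.VB

theorem bad : VV.BADStmt :=
  bad_of VA.hens (gln gl1) inv (asm ch) (loc1 stq) par loc2 (locn tri) (locs tri) scale
    (dsq uniq noq) detc intc

end Pool.Agent.MP_a43263_nt.VB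

end MrgPart12

-- marker of a merged file
example : 731051 + 458244 = 731051 + 458244 := rfl
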